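import Pool.Agent.Lib_helper22.NTA.FromSteps

/-!
# Blow-ups of complementary NTA domains inherit Harnack chains
-/

namespace Pool.Agent.TanCones

open Metric Set Filter Topology

/-- A compact subset of a connected open set is contained in a compact connected subset. -/
theorem exists_compact_hull {V : Type*} [NormedAddCommGroup V] [NormedSpace ℝ V] [ProperSpace V]
    {U : Set V} (hU : IsOpen U) (hc : IsConnected U) {K : Set V} (hK : IsCompact K) (hKU : K ⊆ U) :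
    ∃ K', IsCompact K' ∧ IsPreconnected K' ∧ K ⊆ K' ∧ K' ⊆ U := by
  obtain ⟨x₀, hx₀⟩ := hc.nonempty
  have hpc : IsPathConnected U := (hU.isConnected_iff_isPathConnected).1 hc
  obtain ⟨K', h1, h2, -, h4, h5⟩ : ∃ K', IsCompact K' ∧ IsPreconnected K' ∧ x₀ ∈ K' ∧
      K ∩ K ⊆ K' ∧ K' ⊆ U := by
    refine hK.induction_on (p := fun S => ∃ K', IsCompact K' ∧ IsPreconnected K' ∧ x₀ ∈ K' ∧
      S ∩ K ⊆ K' ∧ K' ⊆ U) ?_ ?_ ?_ ?_
    · exact ⟨{x₀}, isCompact_singleton, isPreconnected_singleton, rfl, by simp, by simpa⟩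
    · rintro s t hst ⟨K', h1, h2, h3, h4, h5⟩
      exact ⟨K', h1, h2, h3, (inter_subset_inter_left _ hst).trans h4, h5⟩
    · rintro s t ⟨K₁, h1, h2, h3, h4, h5⟩ ⟨K₂, g1, g2, g3, g4, g5⟩
      refine ⟨K₁ ∪ K₂, h1.union g1, h2.union x₀ h3 g3 g2, Or.inl h3, ?_, union_subset h5 g5⟩
      rintro x ⟨hx | hx, hxK⟩
      · exact Or.inl (h4 ⟨hx, hxK⟩)
      · exact Or.inr (g4 ⟨hx, hxK⟩)
    · intro x hx
      obtain ⟨ρ, hρ, hball⟩ := Metric.nhds_basis_closedBall.mem_iff.1 (hU.mem_nhds (hKU hx))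
      have hj := hpc.joinedIn x₀ hx₀ x (hKU hx)
      set γ := hj.somePath
      refine ⟨closedBall x ρ, mem_nhdsWithin_of_mem_nhds (closedBall_mem_nhds x hρ),
        range γ ∪ closedBall x ρ, (isCompact_range γ.continuous).union (isCompact_closedBall _ _),
        ?_, Or.inl ⟨0, γ.source⟩, ?_, ?_⟩
      · exact (isPreconnected_range γ.continuous).union x ⟨1, γ.target⟩ (mem_closedBall_self hρ.le)
          (convex_closedBall x ρ).isPreconnected
      · exact fun y hy => Or.inr hy.1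
      · refine union_subset ?_ hball
        rintro _ ⟨s, rfl⟩
        exact hj.somePath_mem s
  exact ⟨K', h1, h2, fun x hx => h4 ⟨hx, hx⟩, h5⟩

/-- A connected set which does not meet the boundary lies on one side. -/
theorem side_of_disjoint_frontier {V : Type*} [TopologicalSpace V] {Ω K : Set V}
    (hΩ : IsOpen Ω) (hK : IsPreconnected K) (hd : Disjoint K (frontier Ω)) :
    K ⊆ Ω ∨ K ⊆ (closure Ω)ᶜ := by
  have hsub : K ⊆ Ω ∪ (closure Ω)ᶜ := by
    intro x hx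
    by_cases h : x ∈ closure Ω
    · left
      by_contra h'
      refine disjoint_left.1 hd hx ⟨h, ?_⟩
      rwa [hΩ.interior_eq]
    · exact Or.inr h
  refine hK.subset_or_subset hΩ isClosed_closure.isOpen_compl ?_ hsub
  exact disjoint_compl_right_iff_subset.2 subset_closure

/-- A chain of `k + 1` balls which avoid `L`. -/
def BallChain {V : Type*} [PseudoMetricSpace V] (L : Set V) (k : ℕ) (X Y : V) : Prop :=
  ∃ (c : ℕ → V) (r : ℕ → ℝ), (∀ i ≤ k, Disjoint (ball (c i) (r i)) L) ∧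
    X ∈ ball (c 0) (r 0) ∧ Y ∈ ball (c k) (r k) ∧
    ∀ i < k, (ball (c i) (r i) ∩ ball (c (i + 1)) (r (i + 1))).Nonempty

variable {n : ℕ}

theorem frontier_compl_closure_eq {Ω : Set (E n)} {M : ℝ} {R : ENNReal} {N : ℝ → ℕ}
    (h : IsNTAWith Ω M R N) : frontier (closure Ω)ᶜ = frontier Ω := by
  rw [frontier_compl]
  apply Subset.antisymm frontier_closure_subset
  intro Q hQ
  refine ⟨by rw [closure_closure]; exact hQ.1, ?_⟩
  intro hint
  rw [mem_interior_iff_mem_nhds, Metric.mem_nhds_iff] at hint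
  obtain ⟨ρ, hρ, hball⟩ := hint
  obtain ⟨R₀, hR₀, hR⟩ : ∃ R₀ : ℝ, 0 < R₀ ∧ ENNReal.ofReal R₀ < R := by
    obtain ⟨s, hs0, hs⟩ := ENNReal.lt_iff_exists_real_btwn.1 h.scale_pos
    refine ⟨s, ?_, hs.2⟩
    by_contra hcon
    rw [ENNReal.ofReal_of_nonpos (not_lt.1 hcon)] at hs
    exact lt_irrefl _ hs.1
  obtain ⟨A, hA, -, hAQ, hAd⟩ := h.exterior Q hQ (min ρ R₀) (lt_min hρ hR₀)
    ((ENNReal.ofReal_le_ofReal (min_le_right _ _)).trans_lt hR)
  have hM : 0 < M := by linarith [h.one_lt]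
  have hpos : 0 < min ρ R₀ / M := by positivity
  have hA1 : A ∈ closure Ω := hball (mem_ball.2 (hAQ.trans_le (min_le_left _ _)))
  have hA2 : A ∈ frontier Ω := ⟨hA1, by rwa [h.isOpen.interior_eq]⟩
  have : infDist A (frontier Ω) = 0 := infDist_zero_of_mem hA2
  linarith

/-- Transport of a Harnack chain to the blow-up. -/
theorem chain_of_harnack {Ω : Set (E n)} {M : ℝ} {R : ENNReal} {N : ℝ → ℕ}
    (h : IsNTAWith Ω M R N) {Q : E n} (hQ : Q ∈ frontier Ω) {r : ℝ} (hr : 0 < r)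
    {X₁ X₂ : E n} {ε C : ℝ} (hε : 0 < ε) (hC : 0 < C) {L : Set (E n)}
    (hR : ENNReal.ofReal (4 * (r * (‖X₁‖ + ‖X₂‖ + 1))) < R)
    (h₁ : ∀ x ∈ closedBall X₁ ε, Q + r • x ∈ Ω) (h₂ : ∀ x ∈ closedBall X₂ ε, Q + r • x ∈ Ω)
    (hd : dist X₁ X₂ < C * ε) (hL : ∀ x ∈ L, Q + r • x ∉ Ω) :
    ∃ k ≤ N C, BallChain L k X₁ X₂ := by
  have hdist : ∀ x y : E n, dist (Q + r • x) (Q + r • y) = r * dist x y := by
    intro x y
    rw [dist_add_left, dist_smul₀, Real.norm_of_nonneg hr.le]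
  have hfr : ∀ X : E n, (∀ x ∈ closedBall X ε, Q + r • x ∈ Ω) →
      r * ε < infDist (Q + r • X) (frontier Ω) := by
    intro X hX
    obtain ⟨y, hy, hyd⟩ := isClosed_frontier.exists_infDist_eq_dist ⟨Q, hQ⟩ (Q + r • X)
    rw [hyd]
    by_contra hcon
    rw [not_lt] at hcon
    have hyx : y = Q + r • (r⁻¹ • (y - Q)) := by
      rw [smul_inv_smul₀ hr.ne']
      abel
    have h3 : r⁻¹ • (y - Q) ∈ closedBall X ε := by
      rw [mem_closedBall, dist_comm]
      rw [hyx, hdist] at hcon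
      exact le_of_mul_le_mul_left hcon hr
    have h4 := hX _ h3
    rw [← hyx] at h4
    rw [frontier, h.isOpen.interior_eq] at hy
    exact hy.2 h4
  have hball : ∀ X : E n, ‖X‖ < ‖X₁‖ + ‖X₂‖ + 1 →
      Q + r • X ∈ ball Q (4 * (r * (‖X₁‖ + ‖X₂‖ + 1)) / 4) := by
    intro X hX
    rw [mem_ball, dist_eq_norm, add_sub_cancel_left, norm_smul, Real.norm_of_nonneg hr.le]
    rw [mul_div_cancel_left₀ _ (by norm_num : (4 : ℝ) ≠ 0)]
    gcongr
  have hn1 := norm_nonneg X₁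
  have hn2 := norm_nonneg X₂
  obtain ⟨k, hk, c, ρ, hc, hX, hY, hcap⟩ := h.harnack Q hQ (4 * (r * (‖X₁‖ + ‖X₂‖ + 1)))
    (by positivity) hR (r * ε) (by positivity) C hC (Q + r • X₁)
    ⟨h₁ X₁ (mem_closedBall_self hε.le), hball X₁ (by linarith)⟩ (Q + r • X₂)
    ⟨h₂ X₂ (mem_closedBall_self hε.le), hball X₂ (by linarith)⟩ (hfr X₁ h₁) (hfr X₂ h₂)
    (by rw [hdist]; nlinarith)
  have hpull : ∀ (x c : E n) (ρ : ℝ), x ∈ ball (r⁻¹ • (c - Q)) (r⁻¹ * ρ) ↔
      Q + r • x ∈ ball c ρ := by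
    intro x c ρ
    rw [mem_ball, mem_ball]
    have e : c = Q + r • (r⁻¹ • (c - Q)) := by
      rw [smul_inv_smul₀ hr.ne']
      abel
    conv_rhs => rw [e, hdist]
    rw [lt_inv_mul_iff₀ hr]
  refine ⟨k, hk, fun i => r⁻¹ • (c i - Q), fun i => r⁻¹ * ρ i, ?_, ?_, ?_, ?_⟩
  · intro i hi
    rw [disjoint_left]
    intro x hx hxL
    exact hL x hxL ((hc i hi).2.1 ((hpull x _ _).1 hx))
  · exact (hpull _ _ _).2 hX
  · exact (hpull _ _ _).2 hY
  · intro i hi
    obtain ⟨W, hW1, hW2⟩ := hcap i hi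
    refine ⟨r⁻¹ • (W - Q), (hpull _ _ _).2 ?_, (hpull _ _ _).2 ?_⟩ <;>
    · rw [smul_inv_smul₀ hr.ne', add_sub_cancel]
      assumption

/-- Blow-ups of complementary NTA domains have uniform chains. -/
theorem blowup_chain {Ωp Ωm : Set (E n)} (h : ComplementaryNTA Ωp Ωm) {Q : E n}
    (hQ : Q ∈ frontier Ωp) : ∃ N : ℝ → ℕ, ∀ Up Um : Set (E n), IsOpen Up → IsOpen Um →
      IsConnected Up → IsConnected Um → Disjoint Up Um →
      (Up ∪ Um)ᶜ ∈ Tan (frontier Ωp) Q →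
      ∀ C > 0, ∀ ε > 0, ∀ X₁ X₂ : E n, closedBall X₁ ε ⊆ Um → closedBall X₂ ε ⊆ Um →
        dist X₁ X₂ < C * ε → ∀ L ⊆ Up, IsCompact L → ∃ k ≤ N C, BallChain L k X₁ X₂ := by
  obtain ⟨hΩm, ⟨M, R, N, hp⟩, ⟨M', R', N', hm⟩⟩ := h
  have hfr : frontier Ωm = frontier Ωp := by
    rw [hΩm]
    exact frontier_compl_closure_eq hp
  refine ⟨fun C => max (N C) (N' C), ?_⟩
  intro Up Um hUp hUm hcp hcm hdisj hT C hC ε hε X₁ X₂ hX₁ hX₂ hd L hL hLc
  obtain ⟨hTc, r, hr0, -, hrlim, hAW⟩ := hT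
  set T : Set (E n) := (Up ∪ Um)ᶜ with hTdef
  have hM : 0 < M := by linarith [hp.one_lt]
  have hM1 := hp.one_lt
  -- the compact set of possible corkscrew points
  set KM : Set (E n) := closedBall 0 1 ∩ ⋂ y ∈ T, {x | 1 / (2 * M) ≤ dist x y} with hKM
  have hKMc : IsCompact KM := by
    refine (isCompact_closedBall _ _).inter_right (isClosed_biInter fun y _ => ?_)
    exact isClosed_le continuous_const (continuous_id.dist continuous_const)
  have hKMT : KM ⊆ Up ∪ Um := by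
    intro x hx
    by_contra hxT
    have := mem_iInter₂.1 hx.2 x hxT
    rw [Set.mem_ofPred_eq, dist_self] at this
    have h2 : 0 < 1 / (2 * M) := by positivity
    linarith
  have hKMp : IsCompact (KM \ Um) := hKMc.diff hUm
  have hKMm : IsCompact (KM \ Up) := hKMc.diff hUp
  obtain ⟨Kp, hKpc, hKpp, hKp1, hKp2⟩ := exists_compact_hull hUp hcp (hLc.union hKMp)
    (union_subset hL (fun x hx => (hKMT hx.1).resolve_right hx.2))
  obtain ⟨Km, hKmc, hKmp, hKm1, hKm2⟩ := exists_compact_hull hUm hcm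
    (((isCompact_closedBall X₁ ε).union (isCompact_closedBall X₂ ε)).union hKMm)
    (union_subset (union_subset hX₁ hX₂) (fun x hx => (hKMT hx.1).resolve_left hx.2))
  have hKc : IsCompact (Kp ∪ Km) := hKpc.union hKmc
  have hKT : Kp ∪ Km ⊆ Tᶜ := by
    rw [hTdef, compl_compl]
    exact union_subset_union hKp2 hKm2
  obtain ⟨δ, hδ, hδK⟩ := hKc.exists_thickening_subset_open hTc.isOpen_compl hKT
  obtain ⟨ρ, hρ⟩ := hKc.isBounded.subset_closedBall (0 : E n)
  -- choose the scale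
  have hlim1 : ∀ b > 0, ∀ᶠ j in atTop, r j < b := fun b hb => hrlim.eventually (gt_mem_nhds hb)
  have hRex : ∀ R : ENNReal, 0 < R → ∀ a > 0, ∀ᶠ j in atTop, ENNReal.ofReal (4 * (r j * a)) < R := by
    intro R hR a ha
    obtain ⟨s, hs0, hs⟩ := ENNReal.lt_iff_exists_real_btwn.1 hR
    have hs1 : 0 < s := by
      by_contra hcon
      rw [ENNReal.ofReal_of_nonpos (not_lt.1 hcon)] at hs
      exact lt_irrefl _ hs.1
    filter_upwards [hlim1 (s / (4 * a)) (by positivity)] with j hj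
    refine (ENNReal.ofReal_le_ofReal ?_).trans_lt hs.2
    rw [lt_div_iff₀ (by positivity)] at hj
    linarith
  have ha : 0 < ‖X₁‖ + ‖X₂‖ + 1 := by positivity
  have hev := (hAW (max ρ 1) (by positivity) δ hδ).and ((hAW 2 two_pos (1 / (2 * M))
    (by positivity)).and ((hRex R hp.scale_pos _ ha).and ((hRex R' hm.scale_pos _ ha).and
      (hRex R hp.scale_pos 1 one_pos))))
  obtain ⟨j, ⟨hj1, -⟩, ⟨-, hj2⟩, hj3, hj4, hj5⟩ := hev.exists
  have hrj := hr0 j
  have hback : ∀ W : E n, Q + r j • ((r j)⁻¹ • (W - Q)) = W := by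
    intro W
    rw [smul_inv_smul₀ hrj.ne']
    abel
  -- the compact sets avoid the boundary
  have hKA : ∀ x ∈ Kp ∪ Km, Q + r j • x ∉ frontier Ωp := by
    intro x hx hxf
    have hxA : x ∈ (fun X => (r j)⁻¹ • (X - Q)) '' frontier Ωp := by
      refine ⟨Q + r j • x, hxf, ?_⟩
      simp only [add_sub_cancel_left]
      rw [inv_smul_smul₀ hrj.ne']
    obtain ⟨y, hy, hxy⟩ := hj1 x hxA (by
      have := hρ hx
      rw [mem_closedBall, dist_zero_right] at this
      exact this.trans (le_max_left _ _))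
    refine hδK ?_ hy
    rw [mem_thickening_iff]
    exact ⟨x, hx, by rwa [dist_comm]⟩
  -- corkscrew points
  have hcork : ∀ A : E n, dist A Q < r j → r j / M < infDist A (frontier Ωp) →
      (r j)⁻¹ • (A - Q) ∈ Kp ∪ Km := by
    intro A hA1 hA2
    have ha1 : ‖(r j)⁻¹ • (A - Q)‖ < 1 := by
      rw [norm_smul, norm_inv, Real.norm_of_nonneg hrj.le, inv_mul_lt_iff₀ hrj, mul_one,
        ← dist_eq_norm]
      exact hA1
    have haKM : (r j)⁻¹ • (A - Q) ∈ KM := by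
      refine ⟨by simpa using ha1.le, mem_iInter₂.2 fun y hy => ?_⟩
      rw [Set.mem_ofPred_eq]
      rcases le_or_gt ‖y‖ 2 with hy2 | hy2
      · obtain ⟨x, ⟨W, hW, rfl⟩, hxy⟩ := hj2 y hy hy2
        have h1 : 1 / M ≤ dist ((r j)⁻¹ • (A - Q)) ((r j)⁻¹ • (W - Q)) := by
          rw [dist_smul₀, norm_inv, Real.norm_of_nonneg hrj.le, dist_sub_right,
            le_inv_mul_iff₀ hrj]
          have := infDist_le_dist_of_mem (x := A) hW
          calc r j * (1 / M) = r j / M := by ring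
            _ ≤ _ := hA2.le.trans this
        have h2 := dist_triangle_right ((r j)⁻¹ • (A - Q)) ((r j)⁻¹ • (W - Q)) y
        have h2' : dist ((r j)⁻¹ • (A - Q)) ((r j)⁻¹ • (W - Q)) ≤
          dist ((r j)⁻¹ • (A - Q)) y + dist ((r j)⁻¹ • (W - Q)) y := h2
        have h3 : 1 / M = 1 / (2 * M) + 1 / (2 * M) := by field_simp; norm_num
        simp only at hxy
        linarith
      · have h1 : ‖y‖ - ‖(r j)⁻¹ • (A - Q)‖ ≤ dist ((r j)⁻¹ • (A - Q)) y := by
          rw [dist_comm, dist_eq_norm]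
          exact norm_sub_norm_le _ _
        have h2 : 1 / (2 * M) ≤ 1 := by
          rw [div_le_one (by positivity)]
          linarith
        linarith
    rcases hKMT haKM with hU | hU
    · exact Or.inl (hKp1 (Or.inr ⟨haKM, fun h' => disjoint_left.1 hdisj hU h'⟩))
    · exact Or.inr (hKm1 (Or.inr ⟨haKM, fun h' => disjoint_left.1 hdisj h' hU⟩))
  have hRj : ENNReal.ofReal (r j) < R := by
    refine (ENNReal.ofReal_le_ofReal ?_).trans_lt hj5
    linarith
  obtain ⟨A, hAΩ, -, hA1, hA2⟩ := hp.corkscrew Q hQ (r j) hrj hRj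
  obtain ⟨B, hBΩ, -, hB1, hB2⟩ := hp.exterior Q hQ (r j) hrj hRj
  have hAK := hcork A hA1 hA2
  have hBK := hcork B hB1 hB2
  -- sides
  have hside : ∀ K : Set (E n), IsPreconnected K → K ⊆ Kp ∪ Km →
      (∀ x ∈ K, Q + r j • x ∈ Ωp) ∨ (∀ x ∈ K, Q + r j • x ∈ Ωm) := by
    intro K hK hKsub
    have himg : IsPreconnected ((fun x => Q + r j • x) '' K) :=
      hK.image _ (Continuous.continuousOn (by fun_prop))
    have hdj : Disjoint ((fun x => Q + r j • x) '' K) (frontier Ωp) := by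
      rw [disjoint_left]
      rintro _ ⟨x, hx, rfl⟩
      exact hKA x (hKsub hx)
    rcases side_of_disjoint_frontier hp.isOpen himg hdj with h' | h'
    · exact Or.inl fun x hx => h' ⟨x, hx, rfl⟩
    · exact Or.inr fun x hx => by rw [hΩm]; exact h' ⟨x, hx, rfl⟩
  have hpm : ∀ W, W ∈ Ωp → W ∉ Ωm := by
    intro W hW hW'
    rw [hΩm] at hW'
    exact hW' (subset_closure hW)
  rcases hside Kp hKpp subset_union_left with hP | hP <;>
  rcases hside Km hKmp subset_union_right with hQm | hQm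
  · exfalso
    apply hBΩ
    rw [← hback B]
    rcases hBK with h' | h'
    · exact hP _ h'
    · exact hQm _ h'
  · -- `Km` lies in `Ωm`
    obtain ⟨k, hk, hchain⟩ := chain_of_harnack hm (hfr ▸ hQ) hrj (X₁ := X₁) (X₂ := X₂) hε hC
      (L := L) hj4 (fun x hx => hQm x (hKm1 (Or.inl (Or.inl hx))))
      (fun x hx => hQm x (hKm1 (Or.inl (Or.inr hx)))) hd
      (fun x hx => hpm _ (hP x (hKp1 (Or.inl hx))))
    exact ⟨k, hk.trans (le_max_right _ _), hchain⟩
  · -- `Km` lies in `Ωp`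
    obtain ⟨k, hk, hchain⟩ := chain_of_harnack hp hQ hrj (X₁ := X₁) (X₂ := X₂) hε hC
      (L := L) hj3 (fun x hx => hQm x (hKm1 (Or.inl (Or.inl hx))))
      (fun x hx => hQm x (hKm1 (Or.inl (Or.inr hx)))) hd
      (fun x hx h' => hpm _ h' (hP x (hKp1 (Or.inl hx))))
    exact ⟨k, hk.trans (le_max_left _ _), hchain⟩
  · exfalso
    have : A ∈ Ωm := by
      rw [← hback A]
      rcases hAK with h' | h'
      · exact hP _ h'
      · exact hQm _ h'
    exact hpm A hAΩ this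

end Pool.Agent.TanCones
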