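import Pool.Agent.Lib_helper22.NTA.FromSteps

/-!
# Cones over smooth links are NTA
-/

namespace Pool.Agent.TanCones

open Metric Set Filter Topology Pointwise

set_option linter.unusedSectionVars false

variable {V : Type*} [NormedAddCommGroup V] [NormedSpace ℝ V] [FiniteDimensional ℝ V]

/-- A `C¹` homogeneous function without critical points off the origin. -/
structure SmoothCone (f : V → ℝ) (d : ℕ) : Prop where
  contDiff : ContDiff ℝ 1 f
  hom : ∀ c : ℝ, 0 < c → ∀ X, f (c • X) = c ^ d * f X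
  zero : f 0 = 0
  grad : ∀ X, X ≠ 0 → fderiv ℝ f X ≠ 0

theorem SmoothCone.neg {f : V → ℝ} {d : ℕ} (h : SmoothCone f d) :
    SmoothCone (fun X => -f X) d where
  contDiff := h.contDiff.neg
  hom c hc X := by rw [h.hom c hc]; ring
  zero := by rw [h.zero]; simp
  grad X hX := by
    rw [fderiv_fun_neg]
    simpa using h.grad X hX

theorem SmoothCone.pos_iff {f : V → ℝ} {d : ℕ} (h : SmoothCone f d) {c : ℝ} (hc : 0 < c) (X : V) :
    c • X ∈ {X | 0 < f X} ↔ X ∈ {X | 0 < f X} := by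
  simp only [Set.mem_ofPred_eq, h.hom c hc]
  exact mul_pos_iff_of_pos_left (pow_pos hc d)

theorem SmoothCone.isOpen_pos {f : V → ℝ} {d : ℕ} (h : SmoothCone f d) : IsOpen {X | 0 < f X} :=
  isOpen_lt continuous_const h.contDiff.continuous

/-- Uniform transversal direction. -/
theorem SmoothCone.exists_dir {f : V → ℝ} {d : ℕ} (h : SmoothCone f d) :
    ∃ κ > 0, ∃ c > 0, ∀ Q : V, 1 / 2 ≤ ‖Q‖ → ‖Q‖ ≤ 2 → ∃ n : V, ‖n‖ = 1 ∧
      ∀ X, dist X Q < κ → c ≤ fderiv ℝ f X n := by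
  have hcomp : IsCompact {Q : V | 1 / 2 ≤ ‖Q‖ ∧ ‖Q‖ ≤ 2} := by
    refine (isCompact_closedBall (0 : V) 2).of_isClosed_subset ?_ ?_
    · exact (isClosed_le continuous_const continuous_norm).inter
        (isClosed_le continuous_norm continuous_const)
    · intro Q hQ
      simpa using hQ.2
  have hcont : Continuous (fderiv ℝ f) := h.contDiff.continuous_fderiv one_ne_zero
  obtain ⟨κ, hκ, c, hc, hkey⟩ : ∃ κ > 0, ∃ c > 0, ∀ Q ∈ {Q : V | 1 / 2 ≤ ‖Q‖ ∧ ‖Q‖ ≤ 2},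
      ∃ n : V, ‖n‖ = 1 ∧ ∀ X, dist X Q < κ → c ≤ fderiv ℝ f X n := by
    refine hcomp.induction_on (p := fun S => ∃ κ > 0, ∃ c > 0, ∀ Q ∈ S,
      ∃ n : V, ‖n‖ = 1 ∧ ∀ X, dist X Q < κ → c ≤ fderiv ℝ f X n) ?_ ?_ ?_ ?_
    · exact ⟨1, one_pos, 1, one_pos, fun Q hQ => absurd hQ (notMem_empty Q)⟩
    · rintro s t hst ⟨κ, hκ, c, hc, H⟩
      exact ⟨κ, hκ, c, hc, fun Q hQ => H Q (hst hQ)⟩
    · rintro s t ⟨κ, hκ, c, hc, H⟩ ⟨κ', hκ', c', hc', H'⟩
      refine ⟨min κ κ', lt_min hκ hκ', min c c', lt_min hc hc', ?_⟩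
      rintro Q (hQ | hQ)
      · obtain ⟨n, hn, hn'⟩ := H Q hQ
        exact ⟨n, hn, fun X hX => (min_le_left _ _).trans (hn' X (hX.trans_le (min_le_left _ _)))⟩
      · obtain ⟨n, hn, hn'⟩ := H' Q hQ
        exact ⟨n, hn, fun X hX => (min_le_right _ _).trans (hn' X (hX.trans_le (min_le_right _ _)))⟩
    · rintro Q ⟨hQ1, hQ2⟩
      have hQ0 : Q ≠ 0 := by
        rintro rfl
        norm_num at hQ1
      obtain ⟨v, hv⟩ : ∃ v, fderiv ℝ f Q v ≠ 0 := by
        by_contra hcon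
        push Not at hcon
        exact h.grad Q hQ0 (ContinuousLinearMap.ext hcon)
      obtain ⟨w, hw⟩ : ∃ w, 0 < fderiv ℝ f Q w := by
        rcases lt_or_gt_of_ne hv with hv | hv
        · exact ⟨-v, by rw [map_neg]; linarith⟩
        · exact ⟨v, hv⟩
      have hw0 : w ≠ 0 := by
        rintro rfl
        simp at hw
      have hwn : 0 < ‖w‖ := norm_pos_iff.2 hw0
      set n := ‖w‖⁻¹ • w with hn
      have hn1 : ‖n‖ = 1 := by
        rw [hn, norm_smul, norm_inv, norm_norm, inv_mul_cancel₀ hwn.ne']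
      have hnpos : 0 < fderiv ℝ f Q n := by
        rw [hn, map_smul, smul_eq_mul]
        positivity
      have hcn : Continuous fun X => fderiv ℝ f X n := hcont.clm_apply continuous_const
      have hev : ∀ᶠ X in 𝓝 Q, fderiv ℝ f Q n / 2 < fderiv ℝ f X n :=
        hcn.continuousAt.eventually (lt_mem_nhds (by linarith : fderiv ℝ f Q n / 2 < _))
      obtain ⟨κ, hκ, hball⟩ := Metric.eventually_nhds_iff.1 hev
      refine ⟨ball Q (κ / 2), mem_nhdsWithin_of_mem_nhds (ball_mem_nhds _ (by positivity)),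
        κ / 2, by positivity, fderiv ℝ f Q n / 2, by positivity, ?_⟩
      intro Q' hQ'
      refine ⟨n, hn1, fun X hX => (hball ?_).le⟩
      rw [mem_ball] at hQ'
      calc dist X Q ≤ dist X Q' + dist Q' Q := dist_triangle _ _ _
        _ < κ := by linarith
  exact ⟨κ, hκ, c, hc, fun Q h1 h2 => hkey Q ⟨h1, h2⟩⟩

/-- Lipschitz bound on `closedBall 0 4`. -/
theorem SmoothCone.exists_lip {f : V → ℝ} {d : ℕ} (h : SmoothCone f d) :
    ∃ K > 0, ∀ X Y : V, ‖X‖ ≤ 4 → ‖Y‖ ≤ 4 → |f X - f Y| ≤ K * dist X Y := by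
  have hcont : Continuous (fderiv ℝ f) := h.contDiff.continuous_fderiv one_ne_zero
  obtain ⟨K, hK⟩ := (isCompact_closedBall (0 : V) 4).exists_bound_of_continuousOn
    hcont.continuousOn
  refine ⟨max K 1, lt_max_of_lt_right one_pos, fun X Y hX hY => ?_⟩
  have := Convex.norm_image_sub_le_of_norm_fderiv_le (𝕜 := ℝ) (f := f) (s := closedBall (0 : V) 4)
    (C := max K 1) (x := Y) (y := X) (fun Z _ => h.contDiff.differentiable one_ne_zero Z)
    (fun Z hZ => (hK Z hZ).trans (le_max_left _ _)) (convex_closedBall _ _) (by simpa using hY)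
    (by simpa using hX)
  rwa [Real.norm_eq_abs, ← dist_eq_norm] at this

/-- Growth of `f` along a transversal direction. -/
theorem SmoothCone.growth {f : V → ℝ} {d : ℕ} (h : SmoothCone f d) {κ c : ℝ} {Q n : V}
    (hn : ∀ X, dist X Q < κ → c ≤ fderiv ℝ f X n) {X : V} {a b : ℝ}
    (hab : a ≤ b) (hX : ∀ τ ∈ Icc a b, dist (X + τ • n) Q < κ) :
    c * (b - a) ≤ f (X + b • n) - f (X + a • n) := by
  have hder : ∀ τ, HasDerivAt (fun τ : ℝ => f (X + τ • n)) (fderiv ℝ f (X + τ • n) n) τ := by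
    intro τ
    have h1 : HasFDerivAt f (fderiv ℝ f (X + τ • n)) (X + τ • n) :=
      (h.contDiff.differentiable one_ne_zero _).hasFDerivAt
    have h2 : HasDerivAt (fun τ : ℝ => X + τ • n) n τ := by
      simpa using ((hasDerivAt_id τ).smul_const n).const_add X
    exact h1.comp_hasDerivAt τ h2
  refine Convex.mul_sub_le_image_sub_of_le_deriv (convex_Icc a b)
    (f := fun τ : ℝ => f (X + τ • n)) (fun τ _ => (hder τ).continuousAt.continuousWithinAt)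
    (fun τ _ => (hder τ).differentiableAt.differentiableWithinAt) ?_ a
    ⟨le_rfl, hab⟩ b ⟨hab, le_rfl⟩ hab
  intro τ hτ
  rw [interior_Icc] at hτ
  rw [(hder τ).deriv]
  exact hn _ (hX τ ⟨hτ.1.le, hτ.2.le⟩)

theorem dist_add_smul_le {X Q n : V} (hn : ‖n‖ = 1) (τ : ℝ) :
    dist (X + τ • n) Q ≤ dist X Q + |τ| := by
  calc dist (X + τ • n) Q ≤ dist (X + τ • n) X + dist X Q := dist_triangle _ _ _
    _ = dist X Q + |τ| := by
      rw [dist_eq_norm, add_sub_cancel_left, norm_smul, hn, Real.norm_eq_abs]; ring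

theorem dist_smul_left' {c : ℝ} (hc : 0 < c) (X Y : V) :
    dist (c • X) Y = c * dist X (c⁻¹ • Y) := by
  rw [dist_eq_norm, dist_eq_norm, ← Real.norm_of_nonneg hc.le, ← norm_smul,
    Real.norm_of_nonneg hc.le, smul_sub, smul_inv_smul₀ hc.ne']

/-- Corkscrews at points of norm `1`. -/
theorem SmoothCone.cork_unit {f : V → ℝ} {d : ℕ} (h : SmoothCone f d) :
    ∃ η > 0, η < 1 ∧ ∀ Q : V, ‖Q‖ = 1 → f Q = 0 → ∀ r, 0 < r → r ≤ 4 →
      ∃ A, η * r < dist A Q ∧ dist A Q < r ∧ ball A (η * r) ⊆ {X | 0 < f X} := by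
  obtain ⟨κ, hκ, c, hc, hdir⟩ := h.exists_dir
  obtain ⟨K, hK, hlip⟩ := h.exists_lip
  set η₀ := min (κ / 8) (1 / 8) with hη₀
  have hη₀pos : 0 < η₀ := by positivity
  have hη₀κ : η₀ ≤ κ / 8 := min_le_left _ _
  have hη₀1 : η₀ ≤ 1 / 8 := min_le_right _ _
  set η := min (c * η₀ / (2 * K)) (η₀ / 2) with hη
  have hηpos : 0 < η := by positivity
  have hη1 : η ≤ η₀ / 2 := min_le_right _ _
  have hη2 : η ≤ c * η₀ / (2 * K) := min_le_left _ _
  have hη2' : K * η ≤ c * η₀ / 2 := by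
    rw [le_div_iff₀ (by positivity)] at hη2
    linarith
  refine ⟨η, hηpos, by linarith, ?_⟩
  intro Q hQ1 hQ0 r hr hr4
  obtain ⟨n, hn1, hn⟩ := hdir Q (by rw [hQ1]; norm_num) (by rw [hQ1]; norm_num)
  have hτ : 0 < η₀ * r := by positivity
  have hd : dist (Q + (η₀ * r) • n) Q = η₀ * r := by
    rw [dist_eq_norm, add_sub_cancel_left, norm_smul, hn1, Real.norm_of_nonneg hτ.le, mul_one]
  refine ⟨Q + (η₀ * r) • n, ?_, ?_, ?_⟩
  · rw [hd]
    nlinarith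
  · rw [hd]
    nlinarith
  · intro Z hZ
    rw [mem_ball] at hZ
    have hgr := h.growth hn (X := Q) (a := 0) (b := η₀ * r) hτ.le (by
      intro τ hτ'
      calc dist (Q + τ • n) Q ≤ dist Q Q + |τ| := dist_add_smul_le hn1 τ
        _ = τ := by rw [dist_self, abs_of_nonneg hτ'.1]; ring
        _ ≤ η₀ * r := hτ'.2
        _ < κ := by nlinarith)
    simp only [zero_smul, add_zero, hQ0, sub_zero] at hgr
    have hnA : ‖Q + (η₀ * r) • n‖ ≤ 3 / 2 := by
      calc ‖Q + (η₀ * r) • n‖ ≤ ‖Q‖ + ‖(η₀ * r) • n‖ := norm_add_le _ _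
        _ = 1 + η₀ * r := by rw [hQ1, norm_smul, hn1, Real.norm_of_nonneg hτ.le, mul_one]
        _ ≤ 3 / 2 := by nlinarith
    have hnZ : ‖Z‖ ≤ 4 := by
      calc ‖Z‖ = ‖(Z - (Q + (η₀ * r) • n)) + (Q + (η₀ * r) • n)‖ := by rw [sub_add_cancel]
        _ ≤ ‖Z - (Q + (η₀ * r) • n)‖ + ‖Q + (η₀ * r) • n‖ := norm_add_le _ _
        _ ≤ η * r + 3 / 2 := by rw [← dist_eq_norm]; linarith
        _ ≤ 4 := by nlinarith
    have hl := hlip Z (Q + (η₀ * r) • n) hnZ (by linarith)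
    have hl' := (abs_le.1 hl).1
    have : K * dist Z (Q + (η₀ * r) • n) < c * (η₀ * r) := by
      calc K * dist Z (Q + (η₀ * r) • n) ≤ K * (η * r) := by gcongr
        _ = (K * η) * r := by ring
        _ ≤ (c * η₀ / 2) * r := by gcongr
        _ < c * (η₀ * r) := by
          have : 0 < c * η₀ * r := by positivity
          linarith
    show 0 < f Z
    linarith

/-- Corkscrews at all points of the zero set, at all scales. -/
theorem SmoothCone.cork {f : V → ℝ} {d : ℕ} (h : SmoothCone f d) (hne : ∃ X, 0 < f X) :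
    Cork {X | 0 < f X} {X | f X = 0} := by
  obtain ⟨η, hη, hη1, hcork⟩ := h.cork_unit
  obtain ⟨X₁, hX₁⟩ := hne
  have hX₁0 : X₁ ≠ 0 := by
    rintro rfl
    rw [h.zero] at hX₁
    exact lt_irrefl _ hX₁
  have hX₁n : 0 < ‖X₁‖ := norm_pos_iff.2 hX₁0
  set X₀ := ‖X₁‖⁻¹ • X₁ with hX₀
  have hX₀n : ‖X₀‖ = 1 := by
    rw [hX₀, norm_smul, norm_inv, norm_norm, inv_mul_cancel₀ hX₁n.ne']
  have hX₀m : X₀ ∈ {X | 0 < f X} := (h.pos_iff (inv_pos.2 hX₁n) X₁).2 hX₁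
  obtain ⟨δ, hδ, hball⟩ := Metric.isOpen_iff.1 h.isOpen_pos X₀ hX₀m
  refine ⟨min η (min (δ / 2) (1 / 5)), by positivity, (min_le_left _ _).trans_lt hη1, ?_⟩
  set θ := min η (min (δ / 2) (1 / 5)) with hθ
  have hθ1 : θ ≤ η := min_le_left _ _
  have hθ2 : θ ≤ δ / 2 := (min_le_right _ _).trans (min_le_left _ _)
  have hθ3 : θ ≤ 1 / 5 := (min_le_right _ _).trans (min_le_right _ _)
  intro Q hQ r hr
  rcases le_or_gt r (4 * ‖Q‖) with hle | hgt
  · have hQn : 0 < ‖Q‖ := by linarith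
    obtain ⟨A, hA1, hA2, hA3⟩ := hcork (‖Q‖⁻¹ • Q)
      (by rw [norm_smul, norm_inv, norm_norm, inv_mul_cancel₀ hQn.ne'])
      (by rw [h.hom _ (inv_pos.2 hQn), show f Q = 0 from hQ, mul_zero]) (‖Q‖⁻¹ * r)
      (by positivity) (by
        rw [inv_mul_le_iff₀ hQn]
        linarith)
    have hdist : dist (‖Q‖ • A) Q = ‖Q‖ * dist A (‖Q‖⁻¹ • Q) := dist_smul_left' hQn A Q
    refine ⟨‖Q‖ • A, ?_, ?_, ?_⟩
    · rw [hdist]
      calc θ * r ≤ η * r := by gcongr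
        _ = ‖Q‖ * (η * (‖Q‖⁻¹ * r)) := by field_simp
        _ < _ := by gcongr
    · rw [hdist]
      calc ‖Q‖ * dist A (‖Q‖⁻¹ • Q) < ‖Q‖ * (‖Q‖⁻¹ * r) := by gcongr
        _ = r := by field_simp
    · intro Z hZ
      rw [mem_ball] at hZ
      have h1 : ‖Q‖⁻¹ • Z ∈ ball A (η * (‖Q‖⁻¹ * r)) := by
        rw [mem_ball]
        have : dist (‖Q‖⁻¹ • Z) A = ‖Q‖⁻¹ * dist Z (‖Q‖ • A) := by
          rw [dist_smul_left' (inv_pos.2 hQn), inv_inv]
        rw [this]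
        calc ‖Q‖⁻¹ * dist Z (‖Q‖ • A) < ‖Q‖⁻¹ * (θ * r) := by gcongr
          _ ≤ ‖Q‖⁻¹ * (η * r) := by gcongr
          _ = _ := by ring
      exact (h.pos_iff (inv_pos.2 hQn) Z).1 (hA3 h1)
  · have hr2 : 0 < r / 2 := by positivity
    have hAn : ‖(r / 2) • X₀‖ = r / 2 := by
      rw [norm_smul, hX₀n, Real.norm_of_nonneg hr2.le, mul_one]
    refine ⟨(r / 2) • X₀, ?_, ?_, ?_⟩
    · calc θ * r < r / 4 := by nlinarith
        _ < ‖(r / 2) • X₀‖ - ‖Q‖ := by rw [hAn]; linarith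
        _ ≤ dist ((r / 2) • X₀) Q := by rw [dist_eq_norm]; exact norm_sub_norm_le _ _
    · calc dist ((r / 2) • X₀) Q ≤ ‖(r / 2) • X₀‖ + ‖Q‖ := by
            rw [dist_eq_norm]; exact norm_sub_le _ _
        _ < r := by rw [hAn]; linarith
    · intro Z hZ
      rw [mem_ball] at hZ
      have h1 : (r / 2)⁻¹ • Z ∈ ball X₀ δ := by
        rw [mem_ball]
        have : dist ((r / 2)⁻¹ • Z) X₀ = (r / 2)⁻¹ * dist Z ((r / 2) • X₀) := by
          rw [dist_smul_left' (inv_pos.2 hr2), inv_inv]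
        rw [this]
        calc (r / 2)⁻¹ * dist Z ((r / 2) • X₀) < (r / 2)⁻¹ * (θ * r) := by gcongr
          _ ≤ (r / 2)⁻¹ * (δ / 2 * r) := by gcongr
          _ = δ := by field_simp
      exact (h.pos_iff (inv_pos.2 hr2) Z).1 (hball h1)

/-- Growth of the distance to the complement along a transversal direction. -/
theorem SmoothCone.dist_growth {f : V → ℝ} {d : ℕ} (h : SmoothCone f d) {κ c K : ℝ} {Q n : V}
    (hc : 0 < c) (hK : 0 < K) (hcK : c ≤ K)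
    (hκ1 : κ ≤ 1) (hQ2 : ‖Q‖ ≤ 2) (hn1 : ‖n‖ = 1)
    (hn : ∀ X, dist X Q < κ → c ≤ fderiv ℝ f X n)
    (hlip : ∀ X Y : V, ‖X‖ ≤ 4 → ‖Y‖ ≤ 4 → |f X - f Y| ≤ K * dist X Y)
    {X : V} {ε : ℝ} (hε : 0 < ε) (hX : X ∈ {X | 0 < f X}) (hXε : ε < infDist X {X | 0 < f X}ᶜ)
    {T : ℝ} (hT : 0 ≤ T) (hd : dist X Q + ε + T < κ) {τ : ℝ} (hτ0 : 0 ≤ τ) (hτT : τ ≤ T) :
    X + τ • n ∈ {X | 0 < f X} ∧ c / (2 * K) * (ε + τ) ≤ infDist (X + τ • n) {X | 0 < f X}ᶜ := by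
  have hback : 0 < f (X + (-ε) • n) := by
    apply mem_of_dist_lt (Ω := {X | 0 < f X}) (X := X)
    rw [dist_comm]
    calc dist (X + (-ε) • n) X ≤ dist X X + |-ε| := dist_add_smul_le hn1 _
      _ = ε := by rw [dist_self, abs_neg, abs_of_pos hε]; ring
      _ < _ := hXε
  have hgr := h.growth hn (X := X) (a := -ε) (b := τ) (by linarith) (by
    intro σ hσ
    calc dist (X + σ • n) Q ≤ dist X Q + |σ| := dist_add_smul_le hn1 σ
      _ ≤ dist X Q + (ε + T) := by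
        gcongr
        rw [abs_le]
        constructor <;> linarith [hσ.1, hσ.2]
      _ < κ := by linarith)
  have hfτ : c * (ε + τ) < f (X + τ • n) := by linarith
  have hpos : 0 < c * (ε + τ) := by positivity
  refine ⟨hpos.trans hfτ, ?_⟩
  have h0 : (0 : V) ∈ {X | 0 < f X}ᶜ := by
    simp [h.zero]
  rw [le_infDist ⟨0, h0⟩]
  intro W hW
  by_contra hlt
  rw [not_le] at hlt
  have hfW : f W ≤ 0 := by simpa using hW
  have hdQ : dist (X + τ • n) Q < κ := by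
    calc dist (X + τ • n) Q ≤ dist X Q + |τ| := dist_add_smul_le hn1 τ
      _ < κ := by rw [abs_of_nonneg hτ0]; linarith
  have hnX : ‖X + τ • n‖ < 3 := by
    calc ‖X + τ • n‖ = ‖(X + τ • n - Q) + Q‖ := by rw [sub_add_cancel]
      _ ≤ ‖X + τ • n - Q‖ + ‖Q‖ := norm_add_le _ _
      _ < 3 := by rw [← dist_eq_norm]; linarith
  have hκ' : c / (2 * K) * (ε + τ) < 1 := by
    have h1 : c / (2 * K) ≤ 1 / 2 := by
      rw [div_le_div_iff₀ (by positivity) (by positivity)]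
      linarith
    have h2 : ε + τ < 1 := by linarith [dist_nonneg (x := X) (y := Q)]
    nlinarith
  have hnW : ‖W‖ ≤ 4 := by
    calc ‖W‖ = ‖(W - (X + τ • n)) + (X + τ • n)‖ := by rw [sub_add_cancel]
      _ ≤ ‖W - (X + τ • n)‖ + ‖X + τ • n‖ := norm_add_le _ _
      _ ≤ 4 := by rw [← dist_eq_norm, dist_comm]; linarith
  have hl := (abs_le.1 (hlip (X + τ • n) W (by linarith) hnW)).2
  have : K * dist (X + τ • n) W < c * (ε + τ) := by
    calc K * dist (X + τ • n) W < K * (c / (2 * K) * (ε + τ)) := by gcongr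
      _ = c * (ε + τ) / 2 := by field_simp
      _ < c * (ε + τ) := by linarith
  linarith

/-- Chains near the boundary. -/
theorem SmoothCone.reach_near {f : V → ℝ} {d : ℕ} (h : SmoothCone f d) {C : ℝ} (hC : 0 < C) :
    ∃ ε₀ > 0, ∃ N, ∀ ε > 0, ε < ε₀ → ∀ X ∈ {X | 0 < f X}, ∀ Y ∈ {X | 0 < f X}, ‖X‖ = 1 →
      ε < infDist X {X | 0 < f X}ᶜ → ε < infDist Y {X | 0 < f X}ᶜ →
      dist X Y < C * ε → Reach {X | 0 < f X} N X Y := by
  obtain ⟨κ₀, hκ₀, c₀, hc₀, hdir₀⟩ := h.exists_dir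
  obtain ⟨K, hK, hlip⟩ := h.exists_lip
  -- normalise the constants
  set κ := min κ₀ 1 with hκdef
  have hκ : 0 < κ := by positivity
  have hκ1 : κ ≤ 1 := min_le_right _ _
  set c := min c₀ K with hcdef
  have hc : 0 < c := lt_min hc₀ hK
  have hcK : c ≤ K := min_le_right _ _
  have hdir : ∀ Q : V, 1 / 2 ≤ ‖Q‖ → ‖Q‖ ≤ 2 → ∃ n : V, ‖n‖ = 1 ∧
      ∀ X, dist X Q < κ → c ≤ fderiv ℝ f X n := by
    intro Q h1 h2
    obtain ⟨n, hn1, hn2⟩ := hdir₀ Q h1 h2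
    exact ⟨n, hn1, fun X hX => (min_le_left _ _).trans (hn2 X (hX.trans_le (min_le_left _ _)))⟩
  clear hdir₀
  set a := c / (2 * K) with ha
  have hapos : 0 < a := by positivity
  have ha1 : a ≤ 1 / 2 := by
    rw [ha, div_le_div_iff₀ (by positivity) (by positivity)]
    linarith
  set Λ := 2 * C / a with hΛ
  have hΛpos : 0 < Λ := by positivity
  have hΛa : a * Λ = 2 * C := by rw [hΛ]; field_simp
  set m : ℕ := ⌈3 * Λ / a⌉₊ + 1 with hm
  have hm1 : 3 * Λ / a ≤ m := by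
    rw [hm]
    push_cast
    exact (Nat.le_ceil _).trans (by linarith)
  refine ⟨κ / (2 * (5 * C + 1 + Λ + 4 * C)) , by positivity, m + 1 + m, ?_⟩
  intro ε hε hεε₀ X hX Y hY hXn hXε hYε hXY
  set Ω : Set V := {X | 0 < f X} with hΩ
  have hΩo : IsOpen Ω := h.isOpen_pos
  have h0 : (0 : V) ∈ Ωᶜ := by simp [hΩ, h.zero]
  have hne : Ωᶜ.Nonempty := ⟨0, h0⟩
  have hsmall : (5 * C + 1 + Λ + 4 * C) * ε < κ / 2 := by
    rw [lt_div_iff₀ (by positivity)] at hεε₀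
    linarith
  rcases le_or_gt (4 * C * ε) (infDist X Ωᶜ) with hbig | hsm
  · refine (Reach.single hX (Y := Y) ?_).mono hΩo hne hX (by omega)
    have : 0 < infDist X Ωᶜ := by linarith
    calc dist X Y < C * ε := hXY
      _ ≤ infDist X Ωᶜ / 4 := by linarith
      _ < infDist X Ωᶜ / 2 := by linarith
  · have hne' : Ω ≠ univ := by
      intro hu
      rw [hu] at hne
      simp at hne
    obtain ⟨Q, hQ, hdQ⟩ := exists_mem_frontier_infDist_compl_eq_dist hX hne'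
    have hXQ : dist X Q < 4 * C * ε := by rw [← hdQ]; exact hsm
    have hYQ : dist Y Q < 5 * C * ε := by
      calc dist Y Q ≤ dist Y X + dist X Q := dist_triangle _ _ _
        _ < 5 * C * ε := by rw [dist_comm Y X]; linarith
    have h4C : 4 * C * ε < 1 / 2 := by
      have h1 : 0 < (5 * C + 1 + Λ) * ε := by positivity
      linarith
    have hQ1 : 1 / 2 ≤ ‖Q‖ := by
      have := norm_sub_norm_le X Q
      rw [← dist_eq_norm, hXn] at this
      linarith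
    have hQ2 : ‖Q‖ ≤ 2 := by
      have := norm_sub_norm_le Q X
      rw [← dist_eq_norm, hXn, dist_comm] at this
      linarith
    obtain ⟨n, hn1, hn⟩ := hdir Q hQ1 hQ2
    have hCε : 0 < C * ε := by positivity
    have hΛε : 0 < Λ * ε := by positivity
    have hgX : ∀ τ, 0 ≤ τ → τ ≤ Λ * ε → X + τ • n ∈ Ω ∧ a * (ε + τ) ≤ infDist (X + τ • n) Ωᶜ :=
      fun τ h1 h2 => h.dist_growth hc hK hcK hκ1 hQ2 hn1 hn hlip hε hX hXε hΛε.le
        (by linarith) h1 h2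
    have hgY : ∀ τ, 0 ≤ τ → τ ≤ Λ * ε → Y + τ • n ∈ Ω ∧ a * (ε + τ) ≤ infDist (Y + τ • n) Ωᶜ :=
      fun τ h1 h2 => h.dist_growth hc hK hcK hκ1 hQ2 hn1 hn hlip hε hY hYε hΛε.le
        (by linarith) h1 h2
    have haε : 0 < a * ε := by positivity
    have hdist : ∀ Z : V, dist Z (Z + (Λ * ε) • n) ≤ m * (a * ε / 3) := by
      intro Z
      rw [dist_eq_norm, sub_add_cancel_left, norm_neg, norm_smul, hn1,
        Real.norm_of_nonneg hΛε.le, mul_one]
      rw [div_le_iff₀ hapos] at hm1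
      nlinarith
    have r1 : Reach Ω m X (X + (Λ * ε) • n) := by
      refine reach_segment haε (by omega) (hdist X) ?_
      intro s hs
      have hs0 : 0 ≤ s * (Λ * ε) := mul_nonneg hs.1 hΛε.le
      obtain ⟨h1, h2⟩ := hgX (s * (Λ * ε)) hs0 (by nlinarith [hs.2])
      rw [add_sub_cancel_left, smul_smul]
      exact ⟨h1, le_trans (by nlinarith) h2⟩
    have r3 : Reach Ω m (Y + (Λ * ε) • n) Y := by
      refine reach_segment haε (by omega) (by rw [dist_comm]; exact hdist Y) ?_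
      intro s hs
      have hs0 : 0 ≤ (1 - s) * (Λ * ε) := mul_nonneg (by linarith [hs.2]) hΛε.le
      obtain ⟨h1, h2⟩ := hgY ((1 - s) * (Λ * ε)) hs0 (by nlinarith [hs.1])
      have : Y + (Λ * ε) • n + s • (Y - (Y + (Λ * ε) • n)) = Y + ((1 - s) * (Λ * ε)) • n := by
        module
      rw [this]
      exact ⟨h1, le_trans (by nlinarith) h2⟩
    have r2 : Reach Ω 1 (X + (Λ * ε) • n) (Y + (Λ * ε) • n) := by
      obtain ⟨h1, h2⟩ := hgX (Λ * ε) hΛε.le le_rfl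
      refine Reach.single h1 ?_
      rw [dist_add_right]
      have : a * (Λ * ε) = 2 * C * ε := by rw [← mul_assoc, hΛa]
      nlinarith
    exact (r1.trans r2).trans r3

theorem SmoothCone.infDist_smul {f : V → ℝ} {d : ℕ} (h : SmoothCone f d) {c : ℝ} (hc : 0 < c)
    (X : V) : infDist (c • X) {X | 0 < f X}ᶜ = c * infDist X {X | 0 < f X}ᶜ := by
  have hcompl : c • {X | 0 < f X}ᶜ = {X | 0 < f X}ᶜ := by
    ext W
    rw [mem_smul_set_iff_inv_smul_mem₀ hc.ne', mem_compl_iff, mem_compl_iff,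
      h.pos_iff (inv_pos.2 hc) W]
  conv_lhs => rw [← hcompl]
  rw [infDist_smul₀ hc.ne', Real.norm_of_nonneg hc.le]

/-- The uniform chain condition for smooth cones. -/
theorem SmoothCone.uniformReach {f : V → ℝ} {d : ℕ} (h : SmoothCone f d)
    (hconn : IsPreconnected {X | 0 < f X}) : UniformReach {X | 0 < f X} := by
  intro C hC
  obtain ⟨ε₀, hε₀, N₁, hN₁⟩ := h.reach_near hC
  set Ω : Set V := {X | 0 < f X} with hΩ
  have hΩo : IsOpen Ω := h.isOpen_pos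
  have h0 : (0 : V) ∈ Ωᶜ := by simp [hΩ, h.zero]
  have hne : Ωᶜ.Nonempty := ⟨0, h0⟩
  set K : Set V := {X | ε₀ ≤ infDist X Ωᶜ} ∩ closedBall 0 (1 + C) with hK
  have hKc : IsCompact K :=
    (isCompact_closedBall (0 : V) (1 + C)).inter_left
      (isClosed_le continuous_const (continuous_infDist_pt _))
  have hKΩ : K ⊆ Ω := by
    rintro X ⟨hX, -⟩
    by_contra hXΩ
    have : infDist X Ωᶜ = 0 := infDist_zero_of_mem hXΩ
    rw [Set.mem_ofPred_eq, this] at hX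
    linarith
  obtain ⟨N₂, hN₂⟩ := exists_reach_compact hΩo hconn hne hKc hKΩ
  refine ⟨max N₁ N₂, ?_⟩
  intro ε hε X hX Y hY hXε hYε hXY
  have hX0 : X ≠ 0 := fun h' => h0 (h' ▸ hX)
  have hXn : 0 < ‖X‖ := norm_pos_iff.2 hX0
  have hi : 0 < ‖X‖⁻¹ := inv_pos.2 hXn
  have hX' : ‖X‖⁻¹ • X ∈ Ω := (h.pos_iff hi X).2 hX
  have hY' : ‖X‖⁻¹ • Y ∈ Ω := (h.pos_iff hi Y).2 hY
  have hXε' : ‖X‖⁻¹ * ε < infDist (‖X‖⁻¹ • X) Ωᶜ := by
    rw [h.infDist_smul hi]
    gcongr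
  have hYε' : ‖X‖⁻¹ * ε < infDist (‖X‖⁻¹ • Y) Ωᶜ := by
    rw [h.infDist_smul hi]
    gcongr
  have hd' : dist (‖X‖⁻¹ • X) (‖X‖⁻¹ • Y) < C * (‖X‖⁻¹ * ε) := by
    rw [dist_smul₀, Real.norm_of_nonneg hi.le]
    calc ‖X‖⁻¹ * dist X Y < ‖X‖⁻¹ * (C * ε) := by gcongr
      _ = _ := by ring
  have hn' : ‖‖X‖⁻¹ • X‖ = 1 := by
    rw [norm_smul, norm_inv, norm_norm, inv_mul_cancel₀ hXn.ne']
  have key : Reach Ω (max N₁ N₂) (‖X‖⁻¹ • X) (‖X‖⁻¹ • Y) := by
    rcases lt_or_ge (‖X‖⁻¹ * ε) ε₀ with hlt | hge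
    · exact (hN₁ _ (by positivity) hlt _ hX' _ hY' hn' hXε' hYε' hd').mono hΩo hne hX'
        (le_max_left _ _)
    · have hle1 : ‖X‖⁻¹ * ε < 1 := by
        have : infDist (‖X‖⁻¹ • X) Ωᶜ ≤ dist (‖X‖⁻¹ • X) 0 := infDist_le_dist_of_mem h0
        rw [dist_zero_right, hn'] at this
        linarith
      refine (hN₂ _ ⟨?_, ?_⟩ _ ⟨?_, ?_⟩).mono hΩo hne hX' (le_max_right _ _)
      · exact hge.trans hXε'.le
      · rw [mem_closedBall, dist_zero_right, hn']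
        linarith
      · exact hge.trans hYε'.le
      · rw [mem_closedBall, dist_zero_right]
        calc ‖‖X‖⁻¹ • Y‖ = ‖(‖X‖⁻¹ • Y - ‖X‖⁻¹ • X) + ‖X‖⁻¹ • X‖ := by rw [sub_add_cancel]
          _ ≤ ‖‖X‖⁻¹ • Y - ‖X‖⁻¹ • X‖ + ‖‖X‖⁻¹ • X‖ := norm_add_le _ _
          _ ≤ 1 + C := by
            rw [hn', ← dist_eq_norm, dist_comm]
            nlinarith
  have := key.smul (fun c hc X => h.pos_iff hc X) hXn
  rwa [smul_inv_smul₀ hXn.ne', smul_inv_smul₀ hXn.ne'] at this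

end Pool.Agent.TanCones
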