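import Mathlib

/-!
# NTA domains, tangent sets and harmonic polynomial cones

Definitions used in the statement about prescribed tangent sets (`MP_a5bf4a_an`).
-/

namespace Pool.Agent.TanCones

open Metric Set Filter Topology

/-- Euclidean space `ℝⁿ`. -/
abbrev E (n : ℕ) := EuclideanSpace ℝ (Fin n)

/-- The distance between two subsets of a metric space. -/
noncomputable def setDist {α : Type*} [PseudoMetricSpace α] (A B : Set α) : ℝ :=
  sInf (Set.image2 dist A B)

/-- `B(c, r)` is an `M`-non-tangential ball of the domain `Ω` (Jerison–Kenig): it is contained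
in `Ω` and `M⁻¹ r < dist (B, ∂Ω) < M r`. -/
def IsNonTangentialBall {n : ℕ} (Ω : Set (E n)) (M : ℝ) (c : E n) (r : ℝ) : Prop :=
  0 < r ∧ ball c r ⊆ Ω ∧ r / M < setDist (ball c r) (frontier Ω) ∧
    setDist (ball c r) (frontier Ω) < M * r

/-- A Harnack chain of `k + 1` balls from `X` to `Y` in `Ω`: a sequence of `M`-non-tangential
balls such that the first contains `X`, the last contains `Y`, and consecutive balls
intersect. -/
def HarnackChain {n : ℕ} (Ω : Set (E n)) (M : ℝ) (k : ℕ) (X Y : E n) : Prop :=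
  ∃ (c : ℕ → E n) (r : ℕ → ℝ), (∀ i ≤ k, IsNonTangentialBall Ω M (c i) (r i)) ∧
    X ∈ ball (c 0) (r 0) ∧ Y ∈ ball (c k) (r k) ∧
    ∀ i < k, (ball (c i) (r i) ∩ ball (c (i + 1)) (r (i + 1))).Nonempty

/-- `Ω` is an NTA domain with constants `M`, `R`, and Harnack chain length function `N`
(Jerison–Kenig, for possibly unbounded domains: `R = ∞` is allowed): it is a domain which
satisfies the interior corkscrew condition, the exterior corkscrew condition and the Harnack
chain condition at all scales `r < R`. -/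
structure IsNTAWith {n : ℕ} (Ω : Set (E n)) (M : ℝ) (R : ENNReal) (N : ℝ → ℕ) : Prop where
  one_lt : 1 < M
  scale_pos : 0 < R
  isOpen : IsOpen Ω
  isConnected : IsConnected Ω
  /-- interior corkscrew condition -/
  corkscrew : ∀ Q ∈ frontier Ω, ∀ r : ℝ, 0 < r → ENNReal.ofReal r < R →
    ∃ A ∈ Ω, r / M < dist A Q ∧ dist A Q < r ∧ r / M < infDist A (frontier Ω)
  /-- exterior corkscrew condition -/
  exterior : ∀ Q ∈ frontier Ω, ∀ r : ℝ, 0 < r → ENNReal.ofReal r < R →
    ∃ A ∉ Ω, r / M < dist A Q ∧ dist A Q < r ∧ r / M < infDist A (frontier Ω)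
  /-- Harnack chain condition: the length of the chain depends only on `C` -/
  harnack : ∀ Q ∈ frontier Ω, ∀ r : ℝ, 0 < r → ENNReal.ofReal r < R →
    ∀ ε > 0, ∀ C > 0, ∀ X₁ ∈ Ω ∩ ball Q (r / 4), ∀ X₂ ∈ Ω ∩ ball Q (r / 4),
      ε < infDist X₁ (frontier Ω) → ε < infDist X₂ (frontier Ω) → dist X₁ X₂ < C * ε →
        ∃ k ≤ N C, HarnackChain Ω M k X₁ X₂

/-- `Ω` is an NTA domain. -/
def IsNTA {n : ℕ} (Ω : Set (E n)) : Prop :=
  ∃ (M : ℝ) (R : ENNReal) (N : ℝ → ℕ), IsNTAWith Ω M R N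

/-- `Ω` is an NTA domain at all scales (`R = ∞`). -/
def IsGlobalNTA {n : ℕ} (Ω : Set (E n)) : Prop :=
  ∃ (M : ℝ) (N : ℝ → ℕ), IsNTAWith Ω M ⊤ N

/-- `Ωp` and `Ωm` are complementary NTA domains: `Ωm = ℝⁿ ∖ closure Ωp` and both are NTA
(they then share the boundary `∂Ωp`). -/
def ComplementaryNTA {n : ℕ} (Ωp Ωm : Set (E n)) : Prop :=
  Ωm = (closure Ωp)ᶜ ∧ IsNTA Ωp ∧ IsNTA Ωm

/-- Convergence `A i → T` in the Attouch–Wets topology (local Hausdorff convergence on
compact sets). -/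
def AWTendsto {n : ℕ} (A : ℕ → Set (E n)) (T : Set (E n)) : Prop :=
  ∀ ρ > 0, ∀ ε > 0, ∀ᶠ i in atTop,
    (∀ x ∈ A i, ‖x‖ ≤ ρ → ∃ y ∈ T, dist x y < ε) ∧
    (∀ y ∈ T, ‖y‖ ≤ ρ → ∃ x ∈ A i, dist x y < ε)

/-- `Tan(Σ, Q)`: all closed sets `T` such that `(Σ - Q)/rᵢ → T` for some sequence `rᵢ ↓ 0`. -/
def Tan {n : ℕ} (S : Set (E n)) (Q : E n) : Set (Set (E n)) :=
  {T | IsClosed T ∧ ∃ r : ℕ → ℝ, (∀ i, 0 < r i) ∧ StrictAnti r ∧ Tendsto r atTop (𝓝 0) ∧
    AWTendsto (fun i => (fun X => (r i)⁻¹ • (X - Q)) '' S) T}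

/-- The value of a polynomial at a point of `ℝⁿ`. -/
noncomputable def val {n : ℕ} (p : MvPolynomial (Fin n) ℝ) (X : E n) : ℝ :=
  MvPolynomial.eval (fun i => X i) p

/-- The Laplacian of a polynomial. -/
noncomputable def laplacian {n : ℕ} (p : MvPolynomial (Fin n) ℝ) : MvPolynomial (Fin n) ℝ :=
  ∑ i, MvPolynomial.pderiv i (MvPolynomial.pderiv i p)

/-- The domain `Ω_p⁺ = {p > 0}`. -/
def OmegaPos {n : ℕ} (p : MvPolynomial (Fin n) ℝ) : Set (E n) := {X | 0 < val p X}

/-- The domain `Ω_p⁻ = {p < 0}`. -/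
def OmegaNeg {n : ℕ} (p : MvPolynomial (Fin n) ℝ) : Set (E n) := {X | val p X < 0}

/-- The zero set `Σ_p = {p = 0}`. -/
def zeroSet {n : ℕ} (p : MvPolynomial (Fin n) ℝ) : Set (E n) := {X | val p X = 0}

/-- `ℋ_{n,d}`: homogeneous harmonic polynomials `p` of degree `d` on `ℝⁿ` such that both
`{p > 0}` and `{p < 0}` are NTA domains. -/
def HarmonicCones (n d : ℕ) : Set (MvPolynomial (Fin n) ℝ) :=
  {p | p.IsHomogeneous d ∧ laplacian p = 0 ∧ IsNTA (OmegaPos p) ∧ IsNTA (OmegaNeg p)}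

/-- The coefficient vector of a polynomial. On every finite-dimensional space of polynomials
the usual topology is the one of coefficientwise convergence, so a set of homogeneous
polynomials of fixed degree is compact (connected) if and only if the set of its coefficient
vectors is. -/
noncomputable def coeffVec {n : ℕ} (p : MvPolynomial (Fin n) ℝ) : (Fin n →₀ ℕ) → ℝ :=
  fun m => MvPolynomial.coeff m p

end Pool.Agent.TanCones
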