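import Pool.Agent.Lib_helper22.NTA.Steps

/-!
# From chains of points to the NTA property
-/

namespace Pool.Agent.TanCones

open Metric Set Filter Topology Pointwise

set_option linter.unusedSectionVars false

section general

variable {V : Type*} [NormedAddCommGroup V] [NormedSpace ℝ V]

/-- Uniform chain condition, in terms of steps. -/
def UniformReach (Ω : Set V) : Prop :=
  ∀ C > 0, ∃ N, ∀ ε > 0, ∀ X ∈ Ω, ∀ Y ∈ Ω, ε < infDist X Ωᶜ → ε < infDist Y Ωᶜ →
    dist X Y < C * ε → Reach Ω N X Y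

/-- Corkscrew condition for `Ω` at the points of `S`, at all scales. -/
def Cork (Ω S : Set V) : Prop :=
  ∃ η > 0, η < 1 ∧ ∀ Q ∈ S, ∀ r > 0, ∃ A, η * r < dist A Q ∧ dist A Q < r ∧
    ball A (η * r) ⊆ Ω

theorem Reach.exists_seq {Ω : Set V} : ∀ {N : ℕ} {X Y : V}, X ∈ Ω → Reach Ω N X Y →
    ∃ u : ℕ → V, u 0 = X ∧ u N = Y ∧ (∀ i ≤ N, u i ∈ Ω) ∧
      ∀ i < N, dist (u i) (u (i + 1)) < infDist (u i) Ωᶜ / 2
  | 0, X, Y, hX, h => by
    cases h
    exact ⟨fun _ => X, rfl, rfl, fun _ _ => hX, fun i hi => absurd hi (Nat.not_lt_zero i)⟩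
  | (N + 1), X, Y, hX, ⟨Z, _, hZ, hr⟩ => by
    obtain ⟨u, hu0, huN, hu1, hu2⟩ := Reach.exists_seq (infDist_nonneg_step hZ) hr
    refine ⟨fun i => Nat.casesOn i X u, rfl, huN, ?_, ?_⟩
    · rintro (_ | i) hi
      · exact hX
      · exact hu1 i (by omega)
    · rintro (_ | i) hi
      · simpa [hu0] using hZ
      · exact hu2 i (by omega)

end general

variable {n : ℕ}

theorem infDist_frontier_eq {Ω : Set (E n)} (hΩ : IsOpen Ω) (hne : Ωᶜ.Nonempty) {X : E n}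
    (hX : X ∈ Ω) : infDist X (frontier Ω) = infDist X Ωᶜ := by
  have hne' : Ω ≠ univ := by
    rintro rfl
    simp at hne
  obtain ⟨Q, hQ, hd⟩ := exists_mem_frontier_infDist_compl_eq_dist hX hne'
  apply le_antisymm
  · rw [hd]
    exact infDist_le_dist_of_mem hQ
  · refine infDist_le_infDist_of_subset ?_ ⟨Q, hQ⟩
    intro Z hZ hZΩ
    rw [frontier, Set.mem_sdiff, hΩ.interior_eq] at hZ
    exact hZ.2 hZΩ

theorem nonTangentialBall_of_mem {Ω : Set (E n)} (hΩ : IsOpen Ω) (hne : Ωᶜ.Nonempty) {X : E n}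
    (hX : X ∈ Ω) {M : ℝ} (hM : 2 < M) :
    IsNonTangentialBall Ω M X (infDist X Ωᶜ / 2) := by
  have hpos := infDist_compl_pos hΩ hne hX
  set D := infDist X Ωᶜ with hD
  have hne' : Ω ≠ univ := by
    rintro rfl
    simp at hne
  obtain ⟨Q, hQ, hd⟩ := exists_mem_frontier_infDist_compl_eq_dist hX hne'
  have hlow : ∀ d ∈ Set.image2 dist (ball X (D / 2)) (frontier Ω), D / 2 ≤ d := by
    rintro _ ⟨Z, hZ, W, hW, rfl⟩
    rw [mem_ball] at hZ
    have h1 : D ≤ dist X W := by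
      rw [hD, ← infDist_frontier_eq hΩ hne hX]
      exact infDist_le_dist_of_mem hW
    have h2 : dist X W ≤ dist Z X + dist Z W := dist_triangle_left X W Z
    linarith
  have hmem : dist X Q ∈ Set.image2 dist (ball X (D / 2)) (frontier Ω) :=
    ⟨X, mem_ball_self (by positivity), Q, hQ, rfl⟩
  have hM0 : 0 < M := by linarith
  refine ⟨by positivity, ?_, ?_, ?_⟩
  · intro Z hZ
    rw [mem_ball, dist_comm] at hZ
    exact mem_of_dist_lt (Ω := Ω) (X := X) (by linarith)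
  · calc D / 2 / M < D / 2 := by
          rw [div_lt_iff₀ hM0]
          nlinarith
      _ ≤ _ := le_csInf ⟨_, hmem⟩ hlow
  · calc setDist (ball X (D / 2)) (frontier Ω) ≤ dist X Q := csInf_le ⟨D / 2, hlow⟩ hmem
      _ = D := by rw [← hd]
      _ < M * (D / 2) := by nlinarith

theorem Reach.harnackChain {Ω : Set (E n)} (hΩ : IsOpen Ω) (hne : Ωᶜ.Nonempty) {X Y : E n}
    (hX : X ∈ Ω) {M : ℝ} (hM : 2 < M) {N : ℕ} (h : Reach Ω N X Y) : HarnackChain Ω M N X Y := by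
  obtain ⟨u, hu0, huN, hu1, hu2⟩ := h.exists_seq hX
  have hpos : ∀ i ≤ N, 0 < infDist (u i) Ωᶜ / 2 := fun i hi => by
    have := infDist_compl_pos hΩ hne (hu1 i hi)
    positivity
  refine ⟨u, fun i => infDist (u i) Ωᶜ / 2, fun i hi => nonTangentialBall_of_mem hΩ hne
    (hu1 i hi) hM, ?_, ?_, ?_⟩
  · rw [← hu0]
    exact mem_ball_self (hpos 0 (Nat.zero_le _))
  · rw [← huN]
    exact mem_ball_self (hpos N le_rfl)
  · intro i hi
    refine ⟨u (i + 1), ?_, mem_ball_self (hpos (i + 1) hi)⟩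
    rw [mem_ball, dist_comm]
    exact hu2 i hi

theorem isGlobalNTA_of {Ω : Set (E n)} (hΩ : IsOpen Ω) (hc : IsConnected Ω)
    (hcork : Cork Ω (frontier Ω)) (hext : Cork Ωᶜ (frontier Ω)) (hr : UniformReach Ω) :
    IsGlobalNTA Ω := by
  obtain ⟨η, hη, hη1, hcork⟩ := hcork
  obtain ⟨θ, hθ, hθ1, hext⟩ := hext
  choose! N hN using hr
  have hM1 : 3 ≤ max 3 (max (2 / η) (2 / θ)) := le_max_left _ _
  have hMη : 2 / η ≤ max 3 (max (2 / η) (2 / θ)) := (le_max_left _ _).trans (le_max_right _ _)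
  have hMθ : 2 / θ ≤ max 3 (max (2 / η) (2 / θ)) := (le_max_right _ _).trans (le_max_right _ _)
  set M := max 3 (max (2 / η) (2 / θ)) with hM
  have hM0 : 0 < M := by linarith
  have hrη : ∀ r > 0, r / M < η * r := fun r hr => by
    rw [div_lt_iff₀ hM0]
    rw [div_le_iff₀ hη] at hMη
    nlinarith
  have hrθ : ∀ r > 0, r / M < θ * r := fun r hr => by
    rw [div_lt_iff₀ hM0]
    rw [div_le_iff₀ hθ] at hMθ
    nlinarith
  refine ⟨M, N, by linarith, ENNReal.zero_lt_top, hΩ, hc, ?_, ?_, ?_⟩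
  · intro Q hQ r hr _
    obtain ⟨A, h1, h2, h3⟩ := hcork Q hQ r hr
    refine ⟨A, h3 (mem_ball_self (by positivity)), (hrη r hr).trans h1, h2,
      (hrη r hr).trans_le ?_⟩
    rw [le_infDist ⟨Q, hQ⟩]
    intro W hW
    by_contra hlt
    rw [not_le, dist_comm] at hlt
    have := h3 (mem_ball.2 hlt)
    rw [frontier, Set.mem_sdiff, hΩ.interior_eq] at hW
    exact hW.2 this
  · intro Q hQ r hr _
    obtain ⟨A, h1, h2, h3⟩ := hext Q hQ r hr
    refine ⟨A, h3 (mem_ball_self (by positivity)), (hrθ r hr).trans h1, h2,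
      (hrθ r hr).trans_le ?_⟩
    rw [le_infDist ⟨Q, hQ⟩]
    intro W hW
    by_contra hlt
    rw [not_le, dist_comm] at hlt
    have h4 : W ∈ interior Ωᶜ :=
      interior_maximal h3 isOpen_ball (mem_ball.2 hlt)
    rw [interior_compl] at h4
    exact h4 hW.1
  · intro Q hQ r hr _ ε hε C hC X₁ h₁ X₂ h₂ hd₁ hd₂ hd
    have hne : Ωᶜ.Nonempty := by
      refine ⟨Q, fun h => ?_⟩
      rw [frontier, Set.mem_sdiff, hΩ.interior_eq] at hQ
      exact hQ.2 h
    rw [infDist_frontier_eq hΩ hne h₁.1] at hd₁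
    rw [infDist_frontier_eq hΩ hne h₂.1] at hd₂
    exact ⟨N C, le_rfl, (hN C hC ε hε X₁ h₁.1 X₂ h₂.1 hd₁ hd₂ hd).harnackChain hΩ hne h₁.1
      (by linarith)⟩

end Pool.Agent.TanCones
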