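import Pool.Agent.Lib_helper22.NTA.NonUniform

/-!
# A compact connected family of NTA cones which is not a tangent set
-/

namespace Pool.Agent.TanCones

open Metric Set Filter Topology

theorem zeroSet_eq {n : ℕ} (p : MvPolynomial (Fin n) ℝ) :
    zeroSet p = (OmegaPos p ∪ OmegaNeg p)ᶜ := by
  ext X
  simp only [zeroSet, OmegaPos, OmegaNeg, Set.mem_ofPred_eq, mem_compl_iff, mem_union, not_or,
    not_lt]
  constructor
  · intro h
    exact ⟨h.le, h.ge⟩
  · rintro ⟨h1, h2⟩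
    exact le_antisymm h1 h2

theorem disjoint_Omega {n : ℕ} (p : MvPolynomial (Fin n) ℝ) :
    Disjoint (OmegaPos p) (OmegaNeg p) := by
  rw [disjoint_left]
  intro X h1 h2
  exact lt_asymm (show 0 < val p X from h1) h2

theorem IsGlobalNTA.isOpen {n : ℕ} {Ω : Set (E n)} (h : IsGlobalNTA Ω) : IsOpen Ω := by
  obtain ⟨M, N, hN⟩ := h
  exact hN.isOpen

theorem IsGlobalNTA.isConnected {n : ℕ} {Ω : Set (E n)} (h : IsGlobalNTA Ω) :
    IsConnected Ω := by
  obtain ⟨M, N, hN⟩ := h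
  exact hN.isConnected

theorem main_aux (k : ℕ) :
    ∃ C : Set (MvPolynomial (Fin (4 + k)) ℝ), IsCompact (coeffVec '' C) ∧
      IsConnected (coeffVec '' C) ∧
      C ⊆ HarmonicCones (4 + k) 3 ∧
      (∀ p ∈ C, IsGlobalNTA (OmegaPos p) ∧ IsGlobalNTA (OmegaNeg p)) ∧
      ∀ (Ωp Ωm : Set (E (4 + k))) (Q : E (4 + k)), ComplementaryNTA Ωp Ωm → Q ∈ frontier Ωp →
        ¬ zeroSet '' C ⊆ Tan (frontier Ωp) Q := by
  have himg : coeffVec '' (ppn k '' Icc 0 (1 / 10)) =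
      (fun t => coeffVec (ppn k t)) '' Icc 0 (1 / 10) := image_image _ _ _
  refine ⟨ppn k '' Icc 0 (1 / 10), himg ▸ isCompact_Icc.image (continuous_ppn k),
    himg ▸ (isConnected_Icc (by norm_num)).image _ (continuous_ppn k).continuousOn, ?_, ?_, ?_⟩
  · rintro _ ⟨t, ht, rfl⟩
    exact ppn_mem k ht.1 ht.2
  · rintro _ ⟨t, ht, rfl⟩
    exact isGlobalNTA_ppn k ht.1 ht.2
  · intro Ωp Ωm Q hΩ hQ hsub
    obtain ⟨N, hN⟩ := blowup_chain hΩ hQ
    set t : ℝ := 1 / (16 * 19 ^ (N 11 + 1)) with ht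
    have hpow : (19 : ℝ) ^ 1 ≤ 19 ^ (N 11 + 1) := pow_le_pow_right₀ (by norm_num) (by omega)
    have hpow0 : (0 : ℝ) < 19 ^ (N 11 + 1) := by positivity
    have ht0 : 0 < t := by positivity
    have ht1 : t ≤ 1 / 10 := by
      rw [ht]
      apply one_div_le_one_div_of_le (by norm_num)
      linarith
    have hprod : 19 ^ (N 11 + 1) * (2 * t ^ 2) ≤ t / 8 := by
      have : 19 ^ (N 11 + 1) * (2 * t ^ 2) = (16 * 19 ^ (N 11 + 1) * t) * t / 8 := by ring
      rw [this]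
      have h1 : 16 * 19 ^ (N 11 + 1) * t = 1 := by
        rw [ht]
        field_simp
      rw [h1, one_mul]
    obtain ⟨hP, hM⟩ := isGlobalNTA_ppn k ht0.le ht1
    have hT : (OmegaPos (ppn k t) ∪ OmegaNeg (ppn k t))ᶜ ∈ Tan (frontier Ωp) Q := by
      rw [← zeroSet_eq]
      exact hsub ⟨ppn k t, ⟨t, ⟨ht0.le, ht1⟩, rfl⟩, rfl⟩
    have hs0 : 0 < 2 * t ^ 2 := by positivity
    obtain ⟨m, hm, hchain⟩ := hN _ _ hP.isOpen hM.isOpen hP.isConnected hM.isConnected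
      (disjoint_Omega _) hT 11 (by norm_num) (2 * t ^ 2 / 5) (by positivity)
      (testPt k (-(2 * t ^ 2))) (testPt k (2 * t ^ 2))
      (closedBall_testPt_subset ht0 ht1 (by rw [abs_neg, abs_of_pos hs0]))
      (closedBall_testPt_subset ht0 ht1 (by rw [abs_of_pos hs0]))
      (by
        rw [dist_testPt]
        have : -(2 * t ^ 2) - 2 * t ^ 2 = -(2 * (2 * t ^ 2)) := by ring
        rw [this, abs_neg, abs_of_pos (by positivity)]
        linarith)
      (sepSet k t) (sepSet_subset ht0 ht1) (isCompact_sepSet k t)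
    exact no_short_chain ht0 ht1 hprod hm hchain

theorem main (n : ℕ) (hn : 4 ≤ n) :
    ∃ C : Set (MvPolynomial (Fin n) ℝ), IsCompact (coeffVec '' C) ∧
      IsConnected (coeffVec '' C) ∧
      C ⊆ HarmonicCones n 3 ∧
      (∀ p ∈ C, IsGlobalNTA (OmegaPos p) ∧ IsGlobalNTA (OmegaNeg p)) ∧
      ∀ (Ωp Ωm : Set (E n)) (Q : E n), ComplementaryNTA Ωp Ωm → Q ∈ frontier Ωp →
        ¬ zeroSet '' C ⊆ Tan (frontier Ωp) Q := by
  obtain ⟨k, rfl⟩ := Nat.exists_eq_add_of_le hn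
  exact main_aux k

end Pool.Agent.TanCones
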