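import Pool.Agent.Lib_helper22.NTA.Poly3

/-!
# The family of cubics as polynomials in `n = 4 + k` variables
-/

namespace Pool.Agent.TanCones

open Metric Set Filter Topology MvPolynomial

/-- The cubic `x³ - 3xy² + z³ - (3/2) z (x² + y²)`. -/
noncomputable def A4 : MvPolynomial (Fin 4) ℝ :=
  X 0 ^ 3 - C 3 * X 0 * X 1 ^ 2 + X 2 ^ 3 - C (3 / 2) * X 2 * (X 0 ^ 2 + X 1 ^ 2)

/-- The cubic `w (x² + y² - 2z²)`. -/
noncomputable def B4 : MvPolynomial (Fin 4) ℝ :=
  X 3 * (X 0 ^ 2 + X 1 ^ 2 - C 2 * X 2 ^ 2)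

/-- The cubic `w³ - w (x² + y² + z²)`. -/
noncomputable def D4 : MvPolynomial (Fin 4) ℝ :=
  X 3 ^ 3 - X 3 * (X 0 ^ 2 + X 1 ^ 2 + X 2 ^ 2)

/-- The family of cubics in four variables. -/
noncomputable def pp4 (t : ℝ) : MvPolynomial (Fin 4) ℝ := A4 + C t * B4 + C (t ^ 5) * D4

/-- The family of cubics in `4 + k` variables. -/
noncomputable def ppn (k : ℕ) (t : ℝ) : MvPolynomial (Fin (4 + k)) ℝ :=
  rename (Fin.castAdd k) (pp4 t)

theorem isHomogeneous_pp4 (t : ℝ) : (pp4 t).IsHomogeneous 3 := by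
  have x (i : Fin 4) : (X i : MvPolynomial (Fin 4) ℝ).IsHomogeneous 1 := isHomogeneous_X _ _
  have x2 (i : Fin 4) : (X i ^ 2 : MvPolynomial (Fin 4) ℝ).IsHomogeneous 2 := by
    simpa using (x i).pow 2
  have x3 (i : Fin 4) : (X i ^ 3 : MvPolynomial (Fin 4) ℝ).IsHomogeneous 3 := by
    simpa using (x i).pow 3
  have hA : A4.IsHomogeneous 3 := by
    unfold A4
    exact (((x3 0).sub (((x 0).C_mul 3).mul (x2 1))).add (x3 2)).sub
      (((x 2).C_mul (3 / 2)).mul ((x2 0).add (x2 1)))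
  have hB : B4.IsHomogeneous 3 := by
    unfold B4
    exact (x 3).mul (((x2 0).add (x2 1)).sub ((x2 2).C_mul 2))
  have hD : D4.IsHomogeneous 3 := by
    unfold D4
    exact (x3 3).sub ((x 3).mul (((x2 0).add (x2 1)).add (x2 2)))
  unfold pp4
  exact (hA.add (hB.C_mul t)).add (hD.C_mul _)

theorem isHomogeneous_ppn (k : ℕ) (t : ℝ) : (ppn k t).IsHomogeneous 3 :=
  (isHomogeneous_pp4 t).rename_isHomogeneous

theorem laplacian_pp4 (t : ℝ) : laplacian (pp4 t) = 0 := by
  have h3 : (C 3 : MvPolynomial (Fin 4) ℝ) = 3 := map_ofNat C 3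
  have h2 : (C 2 : MvPolynomial (Fin 4) ℝ) = 2 := map_ofNat C 2
  have h32 : (2 : MvPolynomial (Fin 4) ℝ) * C (3 / 2) = 3 := by
    rw [← h2, ← map_mul, ← h3]
    norm_num
  have d2 : ∀ i : Fin 4, pderiv i (2 : MvPolynomial (Fin 4) ℝ) = 0 := fun i => by
    rw [← h2]; exact pderiv_C
  have d3 : ∀ i : Fin 4, pderiv i (3 : MvPolynomial (Fin 4) ℝ) = 0 := fun i => by
    rw [← h3]; exact pderiv_C
  unfold laplacian pp4 A4 B4 D4
  simp only [Fin.sum_univ_four]
  simp [pderiv_X, Derivation.leibniz, Derivation.leibniz_pow, d2, d3]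
  ring_nf
  linear_combination (-2 * X 2 : MvPolynomial (Fin 4) ℝ) * h32 + (-2 * X 0) * h3
    + (-2 * C t * X 3) * h2

theorem pderiv_rename_castAdd_natAdd {m k : ℕ} (j : Fin k) (p : MvPolynomial (Fin m) ℝ) :
    pderiv (Fin.natAdd m j) (rename (Fin.castAdd k) p) = 0 := by
  induction p using MvPolynomial.induction_on with
  | C a => simp
  | add p q hp hq => simp [hp, hq]
  | mul_X p a h =>
    have hne : Fin.castAdd k a ≠ Fin.natAdd m j := by
      intro h'
      have := congrArg Fin.val h'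
      simp at this
      omega
    simp only [map_mul, rename_X, Derivation.leibniz, pderiv_X_of_ne hne, h]
    simp

theorem laplacian_rename {m k : ℕ} (p : MvPolynomial (Fin m) ℝ) :
    laplacian (rename (Fin.castAdd k) p) = rename (Fin.castAdd k) (laplacian p) := by
  have hinj : Function.Injective (Fin.castAdd k : Fin m → Fin (m + k)) :=
    Fin.castAdd_injective m k
  unfold laplacian
  rw [Fin.sum_univ_add]
  simp only [pderiv_rename hinj, pderiv_rename_castAdd_natAdd, map_zero, Finset.sum_const_zero,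
    add_zero, map_sum]

theorem laplacian_ppn (k : ℕ) (t : ℝ) : laplacian (ppn k t) = 0 := by
  unfold ppn
  rw [laplacian_rename, laplacian_pp4, map_zero]

/-- Projection to the first `m` coordinates. -/
noncomputable def projFirst (m k : ℕ) : E (m + k) →L[ℝ] E m :=
  LinearMap.toContinuousLinearMap
    { toFun := fun X => WithLp.toLp 2 (fun i => X (Fin.castAdd k i))
      map_add' := fun X Y => by ext i; simp
      map_smul' := fun c X => by ext i; simp }

/-- Inclusion as the first `m` coordinates. -/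
noncomputable def inclFirst (m k : ℕ) : E m →L[ℝ] E (m + k) :=
  LinearMap.toContinuousLinearMap
    { toFun := fun y => WithLp.toLp 2 (Fin.append (fun i => y i) (0 : Fin k → ℝ))
      map_add' := fun X Y => by
        ext i
        refine Fin.addCases (fun i => ?_) (fun i => ?_) i <;> simp
      map_smul' := fun c X => by
        ext i
        refine Fin.addCases (fun i => ?_) (fun i => ?_) i <;> simp }

@[simp] theorem projFirst_apply {m k : ℕ} (X : E (m + k)) (i : Fin m) :
    projFirst m k X i = X (Fin.castAdd k i) := rfl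

@[simp] theorem inclFirst_castAdd {m k : ℕ} (y : E m) (i : Fin m) :
    inclFirst m k y (Fin.castAdd k i) = y i := by
  show Fin.append (fun i => y i) (0 : Fin k → ℝ) (Fin.castAdd k i) = y i
  simp

@[simp] theorem inclFirst_natAdd {m k : ℕ} (y : E m) (i : Fin k) :
    inclFirst m k y (Fin.natAdd m i) = 0 := by
  show Fin.append (fun i => y i) (0 : Fin k → ℝ) (Fin.natAdd m i) = 0
  simp

theorem isProj_first (m k : ℕ) : IsProj (projFirst m k) (inclFirst m k) where
  left_inv y := by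
    ext i
    simp
  norm_le X := by
    rw [EuclideanSpace.norm_eq, EuclideanSpace.norm_eq]
    apply Real.sqrt_le_sqrt
    rw [Fin.sum_univ_add]
    have : 0 ≤ ∑ i : Fin k, ‖X (Fin.natAdd m i)‖ ^ 2 := Finset.sum_nonneg fun _ _ => by positivity
    simp only [projFirst_apply]
    linarith
  norm_eq y := by
    rw [EuclideanSpace.norm_eq, EuclideanSpace.norm_eq, Fin.sum_univ_add]
    simp

theorem IsProj.comp {V W U : Type*} [NormedAddCommGroup V] [NormedSpace ℝ V]
    [NormedAddCommGroup W] [NormedSpace ℝ W] [NormedAddCommGroup U] [NormedSpace ℝ U]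
    {π : V →L[ℝ] W} {ι : W →L[ℝ] V} {π' : W →L[ℝ] U} {ι' : U →L[ℝ] W} (h : IsProj π ι)
    (h' : IsProj π' ι') : IsProj (π'.comp π) (ι.comp ι') where
  left_inv y := by simp [h.left_inv, h'.left_inv]
  norm_le X := (h'.norm_le _).trans (h.norm_le X)
  norm_eq y := by simp [h.norm_eq, h'.norm_eq]

theorem val_ppn (k : ℕ) (t : ℝ) (Y : E (4 + k)) : val (ppn k t) Y = p4 t (projFirst 4 k Y) := by
  unfold val ppn
  rw [eval_rename]
  simp only [pp4, A4, B4, D4, p4, projFirst_apply, map_add, map_mul, map_sub, map_pow, eval_C,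
    eval_X, Function.comp_apply]

theorem continuous_ppn (k : ℕ) : Continuous fun t => coeffVec (ppn k t) := by
  refine continuous_pi fun m => ?_
  have e : ∀ t, coeff m (ppn k t) = coeff m (rename (Fin.castAdd k) A4) +
      t * coeff m (rename (Fin.castAdd k) B4) + t ^ 5 * coeff m (rename (Fin.castAdd k) D4) := by
    intro t
    simp only [ppn, pp4, map_add, map_mul, rename_C, coeff_add, coeff_C_mul]
  show Continuous fun t => coeff m (ppn k t)
  simp only [e]
  fun_prop

theorem isConnected_neg_set {V : Type*} [NormedAddCommGroup V] [NormedSpace ℝ V] {f : V → ℝ}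
    (hf : ∀ X, f (-X) = -f X) (h : IsConnected {X | 0 < f X}) : IsConnected {X | 0 < -f X} := by
  have := h.image (fun X => -X) continuous_neg.continuousOn
  convert this using 1
  ext X
  constructor
  · intro hX
    refine ⟨-X, ?_, neg_neg X⟩
    show 0 < f (-X)
    rw [hf]
    exact hX
  · rintro ⟨Y, hY, rfl⟩
    show 0 < - f (-Y)
    rw [hf, neg_neg]
    exact hY

theorem isGlobalNTA_of_odd {n : ℕ} {W : Type*} [NormedAddCommGroup W]
    [NormedSpace ℝ W] [FiniteDimensional ℝ W] {π : E n →L[ℝ] W} {ι : W →L[ℝ] E n}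
    (hπ : IsProj π ι) {f : W → ℝ} {d : ℕ} (h : SmoothCone f d)
    (hconn : IsConnected {X | 0 < f X}) (hodd : ∀ X, f (-X) = -f X) :
    IsGlobalNTA {X : E n | 0 < f (π X)} ∧ IsGlobalNTA {X : E n | f (π X) < 0} := by
  obtain ⟨X₀, hX₀⟩ := hconn.nonempty
  refine ⟨h.isGlobalNTA_preimage hπ hconn ⟨-X₀, ?_⟩, ?_⟩
  · rw [hodd]
    exact neg_lt_zero.2 hX₀
  · have := h.neg.isGlobalNTA_preimage hπ (isConnected_neg_set hodd hconn)
      ⟨X₀, neg_lt_zero.2 hX₀⟩
    simpa using this

/-- All members of the family are global NTA cones. -/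
theorem isGlobalNTA_ppn (k : ℕ) {t : ℝ} (h0 : 0 ≤ t) (h1 : t ≤ 1 / 10) :
    IsGlobalNTA (OmegaPos (ppn k t)) ∧ IsGlobalNTA (OmegaNeg (ppn k t)) := by
  have e1 : OmegaPos (ppn k t) = {Y | 0 < p4 t (projFirst 4 k Y)} := by
    ext Y
    simp [OmegaPos, val_ppn]
  have e2 : OmegaNeg (ppn k t) = {Y | p4 t (projFirst 4 k Y) < 0} := by
    ext Y
    simp [OmegaNeg, val_ppn]
  rw [e1, e2]
  rcases eq_or_lt_of_le h0 with h | h
  · subst h
    have e3 : ∀ Y : E 4, p4 0 Y = q3 (projFirst 3 1 Y) := by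
      intro Y
      have a0 : projFirst 3 1 Y 0 = Y 0 := rfl
      have a1 : projFirst 3 1 Y 1 = Y 1 := rfl
      have a2 : projFirst 3 1 Y 2 = Y 2 := rfl
      simp only [p4, q3, a0, a1, a2]
      ring
    simp only [e3]
    exact isGlobalNTA_of_odd ((isProj_first 4 k).comp (isProj_first 3 1)) smoothCone_q3
      isConnected_q3 q3_neg
  · exact isGlobalNTA_of_odd (isProj_first 4 k) (smoothCone_p4 h h1) (isConnected_p4 h0 h1)
      (p4_neg t)

theorem IsGlobalNTA.isNTA {n : ℕ} {Ω : Set (E n)} (h : IsGlobalNTA Ω) : IsNTA Ω := by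
  obtain ⟨M, N, hN⟩ := h
  exact ⟨M, ⊤, N, hN⟩

theorem ppn_mem (k : ℕ) {t : ℝ} (h0 : 0 ≤ t) (h1 : t ≤ 1 / 10) :
    ppn k t ∈ HarmonicCones (4 + k) 3 :=
  ⟨isHomogeneous_ppn k t, laplacian_ppn k t, (isGlobalNTA_ppn k h0 h1).1.isNTA,
    (isGlobalNTA_ppn k h0 h1).2.isNTA⟩

end Pool.Agent.TanCones
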