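import Pool.Agent.Lib_helper22.NTA.Mv
import Pool.Agent.Lib_helper22.NTA.BlowUp

/-!
# The chain constants of the family blow up
-/

namespace Pool.Agent.TanCones

open Metric Set Filter Topology

/-- A point of the cone `r ≥ 2|z|` close to a given point. -/
theorem exists_near_cone (x y z : ℝ) : ∃ x' y' z' : ℝ, 4 * z' ^ 2 ≤ x' ^ 2 + y' ^ 2 ∧
    x' ^ 2 + y' ^ 2 + z' ^ 2 ≤ x ^ 2 + y ^ 2 + z ^ 2 ∧
    (x' - x) ^ 2 + (y' - y) ^ 2 + (z' - z) ^ 2 ≤ 4 / 5 * (x ^ 2 + y ^ 2 + z ^ 2) := by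
  obtain ⟨r, hr, u, v, huv, hx, hy⟩ : ∃ r ≥ 0, ∃ u v : ℝ, u ^ 2 + v ^ 2 = 1 ∧
      x = r * u ∧ y = r * v := by
    set ζ : ℂ := ⟨x, y⟩ with hζ
    have h := Complex.norm_mul_cos_add_sin_mul_I ζ
    refine ⟨‖ζ‖, norm_nonneg _, Real.cos ζ.arg, Real.sin ζ.arg, ?_, ?_, ?_⟩
    · rw [add_comm]; exact Real.sin_sq_add_cos_sq _
    · have := congrArg Complex.re h
      simp [hζ, ← Complex.ofReal_cos, ← Complex.ofReal_sin] at this
      simp [hζ]
    · have := congrArg Complex.im h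
      simp [hζ, ← Complex.ofReal_cos, ← Complex.ofReal_sin] at this
      simp [hζ]
  obtain ⟨σ, hσ, hσz⟩ : ∃ σ : ℝ, σ ^ 2 = 1 ∧ |z| = σ * z := by
    rcases le_total 0 z with h | h
    · exact ⟨1, by norm_num, by rw [abs_of_nonneg h]; ring⟩
    · exact ⟨-1, by norm_num, by rw [abs_of_nonpos h]; ring⟩
  have hzabs : 0 ≤ |z| := abs_nonneg z
  have hz2 : |z| ^ 2 = z ^ 2 := sq_abs z
  set a := (2 * r + |z|) / 5 with ha
  have ha5 : 5 * a = 2 * r + |z| := by rw [ha]; ring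
  have hnorm : x ^ 2 + y ^ 2 + z ^ 2 = r ^ 2 + |z| ^ 2 := by
    rw [hx, hy, hz2]
    linear_combination r ^ 2 * huv
  refine ⟨2 * a * u, 2 * a * v, σ * a, ?_, ?_, ?_⟩
  · have : (2 * a * u) ^ 2 + (2 * a * v) ^ 2 = 4 * a ^ 2 := by
      linear_combination 4 * a ^ 2 * huv
    rw [this, mul_pow, hσ]
    linarith
  · have : (2 * a * u) ^ 2 + (2 * a * v) ^ 2 + (σ * a) ^ 2 = 5 * a ^ 2 := by
      linear_combination 4 * a ^ 2 * huv + a ^ 2 * hσ
    rw [this, hnorm]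
    have h5 : 5 * (5 * a ^ 2) = (2 * r + |z|) ^ 2 := by rw [← ha5]; ring
    nlinarith [sq_nonneg (r - 2 * |z|)]
  · have : (2 * a * u - x) ^ 2 + (2 * a * v - y) ^ 2 + (σ * a - z) ^ 2 =
        r ^ 2 + |z| ^ 2 - 5 * a ^ 2 + 2 * a * (5 * a - (2 * r + |z|)) := by
      rw [hx, hy, hσz]
      linear_combination ((2 * a - r) ^ 2) * huv + (a ^ 2 - z ^ 2) * hσ
    rw [this, ha5, sub_self, mul_zero, add_zero, hnorm]
    have h5 : 5 * (5 * a ^ 2) = (2 * r + |z|) ^ 2 := by rw [← ha5]; ring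
    nlinarith [mul_nonneg hr hzabs, sq_nonneg r]

/-- The cubic part `x³ - 3xy²` is bounded by `r³`. -/
theorem abs_cubic_le {x y ρ : ℝ} (hρ : 0 ≤ ρ) (h : x ^ 2 + y ^ 2 = ρ ^ 2) :
    |x ^ 3 - 3 * x * y ^ 2| ≤ ρ ^ 3 := by
  apply abs_le_of_sq_le_sq _ (by positivity)
  have : (ρ ^ 3) ^ 2 = (x ^ 2 + y ^ 2) ^ 3 := by rw [h]; ring
  rw [this]
  nlinarith [sq_nonneg (3 * x ^ 2 * y - y ^ 3)]

/-- Positivity of `p4 t` on the separating set. -/
theorem p4_pos_of {t : ℝ} (ht : 0 < t) (ht1 : t ≤ 1 / 10) {Y : E 4}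
    (h1 : Y 0 ^ 2 + Y 1 ^ 2 + Y 2 ^ 2 ≤ (t / 8) ^ 2) (h2 : 1 / 2 ≤ Y 3)
    (h4 : 4 * Y 2 ^ 2 ≤ Y 0 ^ 2 + Y 1 ^ 2) : 0 < p4 t Y := by
  set x := Y 0
  set y := Y 1
  set z := Y 2
  set w := Y 3
  set ρ := Real.sqrt (x ^ 2 + y ^ 2) with hρdef
  have hρ0 : 0 ≤ ρ := Real.sqrt_nonneg _
  have hρ : x ^ 2 + y ^ 2 = ρ ^ 2 := by
    rw [hρdef, Real.sq_sqrt (by positivity)]
  have hρt : ρ ≤ t / 8 := by
    apply (pow_le_pow_iff_left₀ hρ0 (by positivity) two_ne_zero).1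
    nlinarith [sq_nonneg z]
  have hc := (abs_le.1 (abs_cubic_le hρ0 hρ)).1
  have hzρ : |z| ≤ ρ / 2 := by
    apply abs_le_of_sq_le_sq _ (by positivity)
    nlinarith
  have hz1 : |z ^ 3| ≤ ρ ^ 3 / 8 := by
    rw [abs_pow]
    calc |z| ^ 3 ≤ (ρ / 2) ^ 3 := by gcongr
      _ = _ := by ring
  have hz2 : |z * ρ ^ 2| ≤ ρ ^ 3 / 2 := by
    rw [abs_mul, abs_of_nonneg (sq_nonneg ρ)]
    calc |z| * ρ ^ 2 ≤ ρ / 2 * ρ ^ 2 := by gcongr
      _ = _ := by ring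
  have hz1' := (abs_le.1 hz1).1
  have hz2' := (abs_le.1 hz2).2
  have hw0 : 0 < w := by linarith
  have e1 : t / 4 * ρ ^ 2 ≤ t * (w * (ρ ^ 2 - 2 * z ^ 2)) := by
    have h5 : ρ ^ 2 / 2 ≤ ρ ^ 2 - 2 * z ^ 2 := by linarith
    have h6 : 1 / 2 * (ρ ^ 2 / 2) ≤ w * (ρ ^ 2 - 2 * z ^ 2) :=
      mul_le_mul h2 h5 (by positivity) hw0.le
    calc t / 4 * ρ ^ 2 = t * (1 / 2 * (ρ ^ 2 / 2)) := by ring
      _ ≤ _ := by gcongr
  have e2 : 0 < t ^ 5 * (w ^ 3 - w * (ρ ^ 2 + z ^ 2)) := by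
    have h7 : ρ ^ 2 + z ^ 2 < w ^ 2 := by
      have h8 : (t / 8) ^ 2 < 1 / 4 := by nlinarith
      nlinarith
    have h9 : w ^ 3 - w * (ρ ^ 2 + z ^ 2) = w * (w ^ 2 - (ρ ^ 2 + z ^ 2)) := by ring
    rw [h9]
    have : 0 < w ^ 2 - (ρ ^ 2 + z ^ 2) := by linarith
    positivity
  have e3 : 15 / 8 * ρ ^ 3 ≤ t / 4 * ρ ^ 2 := by
    have : ρ ^ 3 ≤ t / 8 * ρ ^ 2 := by
      calc ρ ^ 3 = ρ * ρ ^ 2 := by ring
        _ ≤ _ := by gcongr
    have h10 : 0 ≤ t * ρ ^ 2 := by positivity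
    linarith
  have : p4 t Y = (x ^ 3 - 3 * x * y ^ 2) + z ^ 3 - 3 / 2 * (z * ρ ^ 2)
      + t * (w * (ρ ^ 2 - 2 * z ^ 2)) + t ^ 5 * (w ^ 3 - w * (ρ ^ 2 + z ^ 2)) := by
    simp only [p4]
    rw [← hρ]
    ring
  rw [this]
  linarith

/-- Negativity of `p4 t` near the points `(0, 0, ±s, 1)`, `s = 2t²`. -/
theorem p4_neg_of {t : ℝ} (ht : 0 < t) (ht1 : t ≤ 1 / 10) {Y : E 4} {z₀ : ℝ}
    (hz₀ : |z₀| = 2 * t ^ 2)
    (h : (Y 0) ^ 2 + (Y 1) ^ 2 + (Y 2 - z₀) ^ 2 + (Y 3 - 1) ^ 2 ≤ (2 * t ^ 2 / 5) ^ 2) :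
    p4 t Y < 0 := by
  set x := Y 0
  set y := Y 1
  set z := Y 2
  set w := Y 3
  set s := 2 * t ^ 2 with hs
  have hs0 : 0 < s := by positivity
  have hs1 : s ≤ 1 / 50 := by nlinarith
  set ρ := Real.sqrt (x ^ 2 + y ^ 2) with hρdef
  have hρ0 : 0 ≤ ρ := Real.sqrt_nonneg _
  have hρ : x ^ 2 + y ^ 2 = ρ ^ 2 := by
    rw [hρdef, Real.sq_sqrt (by positivity)]
  have hρs : ρ ≤ s / 5 := by
    apply (pow_le_pow_iff_left₀ hρ0 (by positivity) two_ne_zero).1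
    nlinarith [sq_nonneg (z - z₀), sq_nonneg (w - 1)]
  have hzs : |z - z₀| ≤ s / 5 := by
    apply abs_le_of_sq_le_sq _ (by positivity)
    nlinarith [sq_nonneg x, sq_nonneg y, sq_nonneg (w - 1)]
  have hws : |w - 1| ≤ s / 5 := by
    apply abs_le_of_sq_le_sq _ (by positivity)
    nlinarith [sq_nonneg x, sq_nonneg y, sq_nonneg (z - z₀)]
  have hzup : |z| ≤ 6 / 5 * s := by
    have := abs_add_le (z - z₀) z₀
    rw [sub_add_cancel, hz₀] at this
    linarith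
  have hzlo : 4 / 5 * s ≤ |z| := by
    have := abs_sub_abs_le_abs_sub z₀ z
    rw [hz₀, abs_sub_comm] at this
    linarith
  have hw1 := (abs_le.1 hws).1
  have hw2 := (abs_le.1 hws).2
  have hc := (abs_le.1 (abs_cubic_le hρ0 hρ)).2
  have hz0 := abs_nonneg z
  have hz1 : |z ^ 3| ≤ (6 / 5 * s) ^ 3 := by
    rw [abs_pow]
    gcongr
  have hz2 : |z * ρ ^ 2| ≤ 6 / 5 * s * (s / 5) ^ 2 := by
    rw [abs_mul, abs_of_nonneg (sq_nonneg ρ)]
    gcongr
  have hρ3 : ρ ^ 3 ≤ (s / 5) ^ 3 := by gcongr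
  have hz1' := (abs_le.1 hz1).2
  have hz2' := (abs_le.1 hz2).1
  have hzsq : (4 / 5 * s) ^ 2 ≤ z ^ 2 := by
    rw [← sq_abs z]
    gcongr
  have hρsq : ρ ^ 2 ≤ (s / 5) ^ 2 := by gcongr
  have e1 : t * (w * (ρ ^ 2 - 2 * z ^ 2)) ≤ - (6 / 5 * (t * s ^ 2)) := by
    have h5 : ρ ^ 2 - 2 * z ^ 2 ≤ -(31 / 25 * s ^ 2) := by nlinarith
    have h6 : w * (ρ ^ 2 - 2 * z ^ 2) ≤ -(6 / 5 * s ^ 2) := by
      have h7 : 99 / 100 ≤ w := by linarith
      have h8 : 99 / 100 * (31 / 25 * s ^ 2) ≤ w * (-(ρ ^ 2 - 2 * z ^ 2)) :=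
        mul_le_mul h7 (by linarith) (by positivity) (by linarith)
      nlinarith [sq_nonneg s]
    calc t * (w * (ρ ^ 2 - 2 * z ^ 2)) ≤ t * (-(6 / 5 * s ^ 2)) := by gcongr
      _ = _ := by ring
  have hw0 : 0 < w := by linarith
  have e2 : t ^ 5 * (w ^ 3 - w * (ρ ^ 2 + z ^ 2)) ≤ 11 / 10 * t ^ 5 := by
    have h9 : w ^ 3 ≤ 11 / 10 := by
      have : w ≤ 101 / 100 := by linarith
      calc w ^ 3 ≤ (101 / 100) ^ 3 := by gcongr
        _ ≤ 11 / 10 := by norm_num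
    have h10 : 0 ≤ w * (ρ ^ 2 + z ^ 2) := by positivity
    calc t ^ 5 * (w ^ 3 - w * (ρ ^ 2 + z ^ 2)) ≤ t ^ 5 * (11 / 10) := by gcongr; linarith
      _ = _ := by ring
  have : p4 t Y = (x ^ 3 - 3 * x * y ^ 2) + z ^ 3 - 3 / 2 * (z * ρ ^ 2)
      + t * (w * (ρ ^ 2 - 2 * z ^ 2)) + t ^ 5 * (w ^ 3 - w * (ρ ^ 2 + z ^ 2)) := by
    simp only [p4]
    rw [← hρ]
    ring
  rw [this]
  have hts : t * s ^ 2 = 4 * t ^ 5 := by rw [hs]; ring
  have hs3 : s ^ 3 = 8 * t ^ 6 := by rw [hs]; ring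
  have ht6 : t ^ 6 ≤ 1 / 10 * t ^ 5 := by
    have : 0 < t ^ 5 := by positivity
    calc t ^ 6 = t * t ^ 5 := by ring
      _ ≤ _ := by gcongr
  have ht5 : 0 < t ^ 5 := by positivity
  have e3 : (x ^ 3 - 3 * x * y ^ 2) + z ^ 3 - 3 / 2 * (z * ρ ^ 2) ≤ 181 / 100 * s ^ 3 := by
    nlinarith
  rw [hts] at e1
  rw [hs3] at e3
  linarith

variable {k : ℕ}

/-- The separating set in the positive region. -/
def sepSet (k : ℕ) (t : ℝ) : Set (E (4 + k)) :=
  {Y | ‖Y‖ ≤ 3 ∧ projFirst 4 k Y 0 ^ 2 + projFirst 4 k Y 1 ^ 2 + projFirst 4 k Y 2 ^ 2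
      ≤ (t / 8) ^ 2 ∧ 1 / 2 ≤ projFirst 4 k Y 3 ∧ 4 * projFirst 4 k Y 2 ^ 2 ≤
      projFirst 4 k Y 0 ^ 2 + projFirst 4 k Y 1 ^ 2}

theorem continuous_coord (k : ℕ) (i : Fin 4) : Continuous fun Y : E (4 + k) =>
    projFirst 4 k Y i := by
  simp only [projFirst_apply]
  fun_prop

theorem isCompact_sepSet (k : ℕ) (t : ℝ) : IsCompact (sepSet k t) := by
  refine (isCompact_closedBall (0 : E (4 + k)) 3).of_isClosed_subset ?_ ?_
  · have c0 := continuous_coord k 0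
    have c1 := continuous_coord k 1
    have c2 := continuous_coord k 2
    have c3 := continuous_coord k 3
    exact (isClosed_le continuous_norm continuous_const).inter
      ((isClosed_le (((c0.pow 2).add (c1.pow 2)).add (c2.pow 2)) continuous_const).inter
        ((isClosed_le continuous_const c3).inter
          (isClosed_le (continuous_const.mul (c2.pow 2)) ((c0.pow 2).add (c1.pow 2)))))
  · intro Y hY
    simpa using hY.1

theorem sepSet_subset {t : ℝ} (ht : 0 < t) (ht1 : t ≤ 1 / 10) :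
    sepSet k t ⊆ OmegaPos (ppn k t) := by
  rintro Y ⟨-, h1, h2, h3⟩
  show 0 < val (ppn k t) Y
  rw [val_ppn]
  exact p4_pos_of ht ht1 h1 h2 h3

/-- The test points `(0, 0, z₀, 1, 0, …)`. -/
noncomputable def testPt (k : ℕ) (z₀ : ℝ) : E (4 + k) :=
  inclFirst 4 k (WithLp.toLp 2 ![0, 0, z₀, 1])

theorem norm_sq_four (Y : E 4) : ‖Y‖ ^ 2 = Y 0 ^ 2 + Y 1 ^ 2 + Y 2 ^ 2 + Y 3 ^ 2 := by
  rw [EuclideanSpace.norm_sq_eq, Fin.sum_univ_four]
  simp only [Real.norm_eq_abs, sq_abs]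

theorem proj_testPt (k : ℕ) (z₀ : ℝ) : projFirst 4 k (testPt k z₀) =
    WithLp.toLp 2 ![0, 0, z₀, 1] := (isProj_first 4 k).left_inv _

/-- Coordinatewise consequence of closeness to a test point. -/
theorem coords_of_dist {z₀ : ℝ} {Y : E (4 + k)} {d : ℝ} (hd : dist Y (testPt k z₀) ≤ d) :
    projFirst 4 k Y 0 ^ 2 + projFirst 4 k Y 1 ^ 2 + (projFirst 4 k Y 2 - z₀) ^ 2
      + (projFirst 4 k Y 3 - 1) ^ 2 ≤ d ^ 2 := by
  have h1 : ‖projFirst 4 k (Y - testPt k z₀)‖ ≤ d :=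
    ((isProj_first 4 k).norm_le _).trans (by rwa [dist_eq_norm] at hd)
  have h2 := pow_le_pow_left₀ (norm_nonneg _) h1 2
  rw [norm_sq_four, map_sub, proj_testPt] at h2
  simpa using h2

theorem closedBall_testPt_subset {t : ℝ} (ht : 0 < t) (ht1 : t ≤ 1 / 10) {z₀ : ℝ}
    (hz₀ : |z₀| = 2 * t ^ 2) :
    closedBall (testPt k z₀) (2 * t ^ 2 / 5) ⊆ OmegaNeg (ppn k t) := by
  intro Y hY
  show val (ppn k t) Y < 0
  rw [val_ppn]
  exact p4_neg_of ht ht1 hz₀ (coords_of_dist (mem_closedBall.1 hY))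

theorem dist_testPt (z₀ z₁ : ℝ) : dist (testPt k z₀) (testPt k z₁) = |z₀ - z₁| := by
  have h1 : dist (testPt k z₀) (testPt k z₁) =
      ‖(WithLp.toLp 2 ![0, 0, z₀, 1] - WithLp.toLp 2 ![0, 0, z₁, 1] : E 4)‖ := by
    rw [dist_eq_norm]
    unfold testPt
    rw [← map_sub, (isProj_first 4 k).norm_eq]
  have h2 : ‖(WithLp.toLp 2 ![0, 0, z₀, 1] - WithLp.toLp 2 ![0, 0, z₁, 1] : E 4)‖ ^ 2 =
      |z₀ - z₁| ^ 2 := by
    rw [norm_sq_four, sq_abs]
    simp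
  rw [h1]
  exact (pow_left_inj₀ (norm_nonneg _) (abs_nonneg _) two_ne_zero).1 h2

/-- One step of the chain. -/
theorem chain_step {t s : ℝ} (hs : 0 < s) (ht1 : t ≤ 1 / 10) {c P : E (4 + k)} {ρ g : ℝ}
    (hPc : P ∈ ball c ρ) (hdisj : Disjoint (ball c ρ) (sepSet k t))
    (hP2 : projFirst 4 k P 2 < 0) (hPg : s + dist P (testPt k (-s)) ≤ g)
    (hg : 19 * g ≤ t / 8) : ∀ Y ∈ ball c ρ,
      s + dist Y (testPt k (-s)) ≤ 19 * g ∧ projFirst 4 k Y 2 < 0 := by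
  have hg0 : 0 < g := by
    have := dist_nonneg (x := P) (y := testPt k (-s))
    linarith
  have hsg : s ≤ g := by
    have := dist_nonneg (x := P) (y := testPt k (-s))
    linarith
  -- coordinates of points near the test point
  have hcoord : ∀ Y : E (4 + k), ∀ a, s + dist Y (testPt k (-s)) ≤ a → a ≤ 19 * g →
      projFirst 4 k Y 0 ^ 2 + projFirst 4 k Y 1 ^ 2 + projFirst 4 k Y 2 ^ 2 ≤ a ^ 2 ∧
      1 / 2 ≤ projFirst 4 k Y 3 ∧ ‖Y‖ ≤ 2 := by
    intro Y a hYa hag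
    have hd0 := dist_nonneg (x := Y) (y := testPt k (-s))
    refine ⟨?_, ?_, ?_⟩
    · have h1 : ‖projFirst 4 k (Y - testPt k 0)‖ ≤ a := by
        refine ((isProj_first 4 k).norm_le _).trans ?_
        rw [← dist_eq_norm]
        calc dist Y (testPt k 0) ≤ dist Y (testPt k (-s)) + dist (testPt k (-s)) (testPt k 0) :=
              dist_triangle _ _ _
          _ = s + dist Y (testPt k (-s)) := by
              rw [dist_testPt, sub_zero, abs_neg, abs_of_pos hs]; ring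
          _ ≤ a := hYa
      have h2 := pow_le_pow_left₀ (norm_nonneg _) h1 2
      rw [norm_sq_four, map_sub, proj_testPt] at h2
      simp at h2
      simp only [projFirst_apply]
      nlinarith [sq_nonneg (Y (Fin.castAdd k 3) - 1)]
    · have h1 := coords_of_dist (z₀ := -s) (Y := Y) (le_refl _)
      have h2 : (projFirst 4 k Y 3 - 1) ^ 2 ≤ (dist Y (testPt k (-s))) ^ 2 := by
        nlinarith [sq_nonneg (projFirst 4 k Y 0), sq_nonneg (projFirst 4 k Y 1),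
          sq_nonneg (projFirst 4 k Y 2 - -s)]
      have h3 := (abs_le.1 (abs_le_of_sq_le_sq h2 hd0)).1
      linarith
    · have h1 : ‖testPt k (-s)‖ ≤ 1 + s := by
        have h0 : ‖testPt k (0 : ℝ)‖ = 1 := by
          unfold testPt
          rw [(isProj_first 4 k).norm_eq]
          have : ‖(WithLp.toLp 2 ![0, 0, 0, 1] : E 4)‖ ^ 2 = 1 ^ 2 := by
            rw [norm_sq_four]
            simp
          exact (pow_left_inj₀ (norm_nonneg _) zero_le_one two_ne_zero).1 this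
        have h2 : dist (testPt k (-s)) (testPt k 0) = s := by
          rw [dist_testPt, sub_zero, abs_neg, abs_of_pos hs]
        calc ‖testPt k (-s)‖ = ‖(testPt k (-s) - testPt k 0) + testPt k 0‖ := by
              rw [sub_add_cancel]
          _ ≤ ‖testPt k (-s) - testPt k 0‖ + ‖testPt k (0 : ℝ)‖ := norm_add_le _ _
          _ = 1 + s := by rw [← dist_eq_norm, h2, h0]; ring
      calc ‖Y‖ = ‖(Y - testPt k (-s)) + testPt k (-s)‖ := by rw [sub_add_cancel]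
        _ ≤ ‖Y - testPt k (-s)‖ + ‖testPt k (-s)‖ := norm_add_le _ _
        _ ≤ 2 := by rw [← dist_eq_norm]; linarith
  -- Step 1: the radius is at most `9 g`
  have hρ : ρ ≤ 9 * g := by
    by_contra hcon
    rw [not_le] at hcon
    have hρ0 : 0 < ρ := by linarith
    set lam := 9 * g / ρ with hlam
    have hlam0 : 0 < lam := by positivity
    have hlam1 : lam < 1 := by rw [hlam, div_lt_one hρ0]; exact hcon
    have hlamρ : lam * ρ = 9 * g := by rw [hlam]; field_simp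
    set c' := P + lam • (c - P) with hc'
    have hc'P : dist c' P < 9 * g := by
      rw [hc', dist_eq_norm, add_sub_cancel_left, norm_smul, Real.norm_of_nonneg hlam0.le,
        ← dist_eq_norm, ← hlamρ, dist_comm]
      rw [mem_ball] at hPc
      gcongr
    have hc'c : dist c' c ≤ (1 - lam) * ρ := by
      have e : c' - c = (1 - lam) • (P - c) := by rw [hc']; module
      rw [dist_eq_norm, e, norm_smul, Real.norm_of_nonneg (by linarith), ← dist_eq_norm]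
      have : dist P c ≤ ρ := (mem_ball.1 hPc).le
      have h1 : 0 ≤ 1 - lam := by linarith
      gcongr
    have hc'X : s + dist c' (testPt k (-s)) ≤ 10 * g := by
      have := dist_triangle c' P (testPt k (-s))
      linarith
    obtain ⟨k1, -, -⟩ := hcoord c' (10 * g) hc'X (by linarith)
    obtain ⟨x', y', z', hz1, hz2, hz3⟩ := exists_near_cone (projFirst 4 k c' 0)
      (projFirst 4 k c' 1) (projFirst 4 k c' 2)
    set v : E 4 := WithLp.toLp 2 ![x' - projFirst 4 k c' 0, y' - projFirst 4 k c' 1,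
      z' - projFirst 4 k c' 2, 0] with hv
    set Z := c' + inclFirst 4 k v with hZ
    have hpZ : projFirst 4 k Z = projFirst 4 k c' + v := by
      rw [hZ, map_add, (isProj_first 4 k).left_inv]
    have hZ0 : projFirst 4 k Z 0 = x' := by
      rw [hpZ, PiLp.add_apply, hv]; simp
    have hZ1 : projFirst 4 k Z 1 = y' := by
      rw [hpZ, PiLp.add_apply, hv]; simp
    have hZ2 : projFirst 4 k Z 2 = z' := by
      rw [hpZ, PiLp.add_apply, hv]; simp
    have hvn : ‖v‖ < 9 * g := by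
      have h1 : ‖v‖ ^ 2 < (9 * g) ^ 2 := by
        rw [norm_sq_four]
        have e : v 0 ^ 2 + v 1 ^ 2 + v 2 ^ 2 + v 3 ^ 2 = (x' - projFirst 4 k c' 0) ^ 2 +
            (y' - projFirst 4 k c' 1) ^ 2 + (z' - projFirst 4 k c' 2) ^ 2 := by
          simp [hv]
        rw [e]
        nlinarith
      exact lt_of_pow_lt_pow_left₀ 2 (by positivity) h1
    have hZc' : dist Z c' < 9 * g := by
      rw [hZ, dist_eq_norm, add_sub_cancel_left, (isProj_first 4 k).norm_eq]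
      exact hvn
    have hZX : s + dist Z (testPt k (-s)) ≤ 19 * g := by
      have := dist_triangle Z c' (testPt k (-s))
      linarith
    obtain ⟨-, m2, m3⟩ := hcoord Z (19 * g) hZX le_rfl
    have hZball : Z ∈ ball c ρ := by
      rw [mem_ball]
      calc dist Z c ≤ dist Z c' + dist c' c := dist_triangle _ _ _
        _ < 9 * g + (1 - lam) * ρ := by linarith
        _ = ρ := by rw [← hlamρ]; ring
    refine disjoint_left.1 hdisj hZball ⟨by linarith, ?_, m2, ?_⟩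
    · rw [hZ0, hZ1, hZ2]
      calc x' ^ 2 + y' ^ 2 + z' ^ 2 ≤ _ := hz2
        _ ≤ (10 * g) ^ 2 := k1
        _ ≤ (t / 8) ^ 2 := by gcongr; linarith
    · rw [hZ0, hZ1, hZ2]
      exact hz1
  -- Step 2
  have hdist : ∀ Y ∈ ball c ρ, s + dist Y (testPt k (-s)) ≤ 19 * g := by
    intro Y hY
    rw [mem_ball] at hY hPc
    have h1 := dist_triangle Y c P
    have h2 := dist_triangle Y P (testPt k (-s))
    rw [dist_comm c P] at h1
    linarith
  intro Y hY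
  refine ⟨hdist Y hY, ?_⟩
  -- Step 3
  by_contra hcon
  rw [not_lt] at hcon
  set a := projFirst 4 k P 2 with ha
  set b := projFirst 4 k Y 2 with hb
  have hba : 0 < b - a := by linarith
  set τ := -a / (b - a) with hτ
  have hτ0 : 0 ≤ τ := div_nonneg (by linarith) hba.le
  have hτ1 : τ ≤ 1 := by rw [hτ, div_le_one hba]; linarith
  set W := P + τ • (Y - P) with hW
  have hWball : W ∈ ball c ρ := (convex_ball c ρ).add_smul_sub_mem hPc hY ⟨hτ0, hτ1⟩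
  have hW2 : projFirst 4 k W 2 = 0 := by
    rw [hW, map_add, map_smul, map_sub, PiLp.add_apply, PiLp.smul_apply, PiLp.sub_apply,
      smul_eq_mul, ← ha, ← hb, hτ]
    field_simp
    ring
  obtain ⟨m1, m2, m3⟩ := hcoord W (19 * g) (hdist W hWball) le_rfl
  refine disjoint_left.1 hdisj hWball ⟨by linarith, ?_, m2, ?_⟩
  · refine m1.trans ?_
    gcongr
  · rw [hW2]
    nlinarith [sq_nonneg (projFirst 4 k W 0), sq_nonneg (projFirst 4 k W 1)]

/-- There is no short chain of balls between the test points. -/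
theorem no_short_chain {t : ℝ} (ht : 0 < t) (ht1 : t ≤ 1 / 10) {N : ℕ}
    (hN : 19 ^ (N + 1) * (2 * t ^ 2) ≤ t / 8) {m : ℕ} (hm : m ≤ N) :
    ¬ BallChain (sepSet k t) m (testPt k (-(2 * t ^ 2))) (testPt k (2 * t ^ 2)) := by
  rintro ⟨c, r, hc, hX, hY, hcap⟩
  set s := 2 * t ^ 2 with hs
  have hs0 : 0 < s := by positivity
  have hpow : ∀ i ≤ N, 19 * (19 ^ i * s) ≤ t / 8 := by
    intro i hi
    calc 19 * (19 ^ i * s) = 19 ^ (i + 1) * s := by ring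
      _ ≤ 19 ^ (N + 1) * s := by
        gcongr
        norm_num
      _ ≤ t / 8 := hN
  have key : ∀ i ≤ m, ∀ Y ∈ ball (c i) (r i),
      s + dist Y (testPt k (-s)) ≤ 19 ^ (i + 1) * s ∧ projFirst 4 k Y 2 < 0 := by
    intro i
    induction i with
    | zero =>
      intro hi Y hY'
      have := chain_step (g := s) hs0 ht1 hX (hc 0 hi) (by
        rw [proj_testPt]
        simpa using hs0) (by simp) (by simpa using hpow 0 (Nat.zero_le _)) Y hY'
      simpa using this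
    | succ i ih =>
      intro hi Y hY'
      obtain ⟨P, hP1, hP2⟩ := hcap i (by omega)
      obtain ⟨h1, h2⟩ := ih (by omega) P hP1
      obtain ⟨h3, h4⟩ := chain_step (g := 19 ^ (i + 1) * s) hs0 ht1 hP2 (hc (i + 1) hi) h2 h1
        (hpow (i + 1) (by omega)) Y hY'
      refine ⟨h3.trans (le_of_eq ?_), h4⟩
      ring
  have := (key m le_rfl _ hY).2
  rw [proj_testPt] at this
  simp at this
  linarith

end Pool.Agent.TanCones
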