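import Pool.Agent.Lib_helper22.NTA.Pullback

/-!
# The family of cubics: connectedness
-/

namespace Pool.Agent.TanCones

open Metric Set Filter Topology

/-- The Szulkin cubic on `ℝ³`. -/
noncomputable def q3 (X : E 3) : ℝ :=
  X 0 ^ 3 - 3 * X 0 * X 1 ^ 2 + X 2 ^ 3 - 3 / 2 * X 2 * (X 0 ^ 2 + X 1 ^ 2)

/-- The family of cubics on `ℝ⁴`. -/
noncomputable def p4 (t : ℝ) (X : E 4) : ℝ :=
  X 0 ^ 3 - 3 * X 0 * X 1 ^ 2 + X 2 ^ 3 - 3 / 2 * X 2 * (X 0 ^ 2 + X 1 ^ 2)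
    + t * (X 3 * (X 0 ^ 2 + X 1 ^ 2 - 2 * X 2 ^ 2))
    + t ^ 5 * (X 3 ^ 3 - X 3 * (X 0 ^ 2 + X 1 ^ 2 + X 2 ^ 2))

/-- The cubic in the coordinates `(r, z, w)`, on the half-plane `cos 3θ = 1`. -/
noncomputable def P3 (t : ℝ) (p : ℝ × ℝ × ℝ) : ℝ :=
  p.1 ^ 3 + p.2.1 ^ 3 - 3 / 2 * p.2.1 * p.1 ^ 2 + t * (p.2.2 * (p.1 ^ 2 - 2 * p.2.1 ^ 2))
    + t ^ 5 * (p.2.2 ^ 3 - p.2.2 * (p.1 ^ 2 + p.2.1 ^ 2))

/-- The set where `P3` is positive. -/
def S3 (t : ℝ) : Set (ℝ × ℝ × ℝ) := {p | 0 < P3 t p}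

theorem joined_r {t r r' z w : ℝ} (h : ∀ ρ ∈ uIcc r r', 0 < P3 t (ρ, z, w)) :
    JoinedIn (S3 t) (r, z, w) (r', z, w) := by
  apply JoinedIn.ofLine (f := fun s => (r + s * (r' - r), z, w))
    (Continuous.continuousOn (by fun_prop)) (by simp) (by simp)
  rintro _ ⟨s, hs, rfl⟩
  apply h
  rw [mem_uIcc]
  rcases le_total r r' with hr | hr
  · left
    constructor <;> nlinarith [hs.1, hs.2]
  · right
    constructor <;> nlinarith [hs.1, hs.2]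

theorem joined_z {t r z z' w : ℝ} (h : ∀ ζ ∈ uIcc z z', 0 < P3 t (r, ζ, w)) :
    JoinedIn (S3 t) (r, z, w) (r, z', w) := by
  apply JoinedIn.ofLine (f := fun s => (r, z + s * (z' - z), w))
    (Continuous.continuousOn (by fun_prop)) (by simp) (by simp)
  rintro _ ⟨s, hs, rfl⟩
  apply h
  rw [mem_uIcc]
  rcases le_total z z' with hr | hr
  · left
    constructor <;> nlinarith [hs.1, hs.2]
  · right
    constructor <;> nlinarith [hs.1, hs.2]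

theorem joined_w {t r z w w' : ℝ} (h : ∀ ω ∈ uIcc w w', 0 < P3 t (r, z, ω)) :
    JoinedIn (S3 t) (r, z, w) (r, z, w') := by
  apply JoinedIn.ofLine (f := fun s => (r, z, w + s * (w' - w)))
    (Continuous.continuousOn (by fun_prop)) (by simp) (by simp)
  rintro _ ⟨s, hs, rfl⟩
  apply h
  rw [mem_uIcc]
  rcases le_total w w' with hr | hr
  · left
    constructor <;> nlinarith [hs.1, hs.2]
  · right
    constructor <;> nlinarith [hs.1, hs.2]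

theorem pow5_le {t : ℝ} (h0 : 0 ≤ t) (h1 : t ≤ 1 / 10) : t ^ 5 ≤ t * (1 / 10000) := by
  have h2 : t ^ 4 ≤ (1 / 10) ^ 4 := pow_le_pow_left₀ h0 h1 4
  calc t ^ 5 = t * t ^ 4 := by ring
    _ ≤ t * ((1 / 10) ^ 4) := by gcongr
    _ = _ := by norm_num

/-- `P3` is positive when `r` dominates. -/
theorem P3_pos_of_big {t r z w : ℝ} (h0 : 0 ≤ t) (h1 : t ≤ 1 / 10) (hr : 0 < r)
    (hz : |z| ≤ r / 10) (hw : |w| ≤ r / 10) : 0 < P3 t (r, z, w) := by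
  have hδ0 : 0 ≤ t ^ 5 := by positivity
  have hδ1 : t ^ 5 ≤ 1 / 10 := by
    have := pow5_le h0 h1
    linarith
  obtain ⟨hz1, hz2⟩ := abs_le.1 hz
  obtain ⟨hw1, hw2⟩ := abs_le.1 hw
  have e1 : |z ^ 3| ≤ r ^ 3 / 1000 := by
    rw [abs_pow]
    calc |z| ^ 3 ≤ (r / 10) ^ 3 := by gcongr
      _ = _ := by ring
  have e2 : |z * r ^ 2| ≤ r ^ 3 / 10 := by
    rw [abs_mul, abs_of_nonneg (sq_nonneg r)]
    calc |z| * r ^ 2 ≤ r / 10 * r ^ 2 := by gcongr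
      _ = _ := by ring
  have e3 : |w * (r ^ 2 - 2 * z ^ 2)| ≤ r ^ 3 / 10 := by
    rw [abs_mul]
    have h3 : |r ^ 2 - 2 * z ^ 2| ≤ r ^ 2 := by
      rw [abs_le]
      constructor <;> nlinarith [sq_nonneg z, sq_nonneg (r / 10 - z), sq_nonneg (r / 10 + z)]
    calc |w| * |r ^ 2 - 2 * z ^ 2| ≤ r / 10 * r ^ 2 := by gcongr
      _ = _ := by ring
  have e4 : |w ^ 3 - w * (r ^ 2 + z ^ 2)| ≤ 2 * r ^ 3 / 10 := by
    have h4 : w ^ 3 - w * (r ^ 2 + z ^ 2) = w * (w ^ 2 - r ^ 2 - z ^ 2) := by ring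
    rw [h4, abs_mul]
    have h5 : |w ^ 2 - r ^ 2 - z ^ 2| ≤ 2 * r ^ 2 := by
      rw [abs_le]
      constructor <;> nlinarith [sq_nonneg z, sq_nonneg w, sq_nonneg (r / 10 - z),
        sq_nonneg (r / 10 + z), sq_nonneg (r / 10 - w), sq_nonneg (r / 10 + w)]
    calc |w| * |w ^ 2 - r ^ 2 - z ^ 2| ≤ r / 10 * (2 * r ^ 2) := by gcongr
      _ = _ := by ring
  have f3 : |t * (w * (r ^ 2 - 2 * z ^ 2))| ≤ r ^ 3 / 100 := by
    rw [abs_mul, abs_of_nonneg h0]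
    calc t * |w * (r ^ 2 - 2 * z ^ 2)| ≤ 1 / 10 * (r ^ 3 / 10) := by gcongr
      _ = _ := by ring
  have f4 : |t ^ 5 * (w ^ 3 - w * (r ^ 2 + z ^ 2))| ≤ r ^ 3 / 50 := by
    rw [abs_mul, abs_of_nonneg hδ0]
    calc t ^ 5 * |w ^ 3 - w * (r ^ 2 + z ^ 2)| ≤ 1 / 10 * (2 * r ^ 3 / 10) := by gcongr
      _ = _ := by ring
  have hr3 : 0 < r ^ 3 := by positivity
  have := (abs_le.1 e1).1
  have := (abs_le.1 e2).2
  have := (abs_le.1 f3).1
  have := (abs_le.1 f4).1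
  simp only [P3]
  nlinarith

/-- Points with `r` dominating are joined to `(1, 0, 0)`. -/
theorem joined_big {t r z w : ℝ} (h0 : 0 ≤ t) (h1 : t ≤ 1 / 10) (hr : 0 < r)
    (hz : |z| ≤ r / 10) (hw : |w| ≤ r / 10) : JoinedIn (S3 t) (r, z, w) (1, 0, 0) := by
  have hr10 : 0 ≤ r / 10 := by positivity
  refine (joined_z (z' := 0) ?_).trans ((joined_w (w' := 0) ?_).trans (joined_r ?_))
  · intro ζ hζ
    refine P3_pos_of_big h0 h1 hr ?_ hw
    rw [mem_uIcc] at hζ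
    rw [abs_le] at hz ⊢
    rcases hζ with h | h <;> constructor <;> linarith [h.1, h.2, hz.1, hz.2]
  · intro ω hω
    refine P3_pos_of_big h0 h1 hr (by simpa using hr10) ?_
    rw [mem_uIcc] at hω
    rw [abs_le] at hw ⊢
    rcases hω with h | h <;> constructor <;> linarith [h.1, h.2, hw.1, hw.2]
  · intro ρ hρ
    have hρ0 : 0 < ρ := by
      rw [mem_uIcc] at hρ
      rcases hρ with h | h <;> linarith [h.1, h.2]
    refine P3_pos_of_big h0 h1 hρ0 ?_ ?_ <;>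
    · rw [abs_zero]
      positivity

/-- Monotonicity in `r` to the right of `r₀ = z - κ w`. -/
theorem P3_mono {t r ρ z w : ℝ} (hr : 0 ≤ r) (hr0 : z - 2 / 3 * (t - t ^ 5) * w ≤ r)
    (hρ : r ≤ ρ) : P3 t (r, z, w) ≤ P3 t (ρ, z, w) := by
  have key : P3 t (ρ, z, w) - P3 t (r, z, w) =
      (ρ - r) * (ρ ^ 2 + ρ * r + r ^ 2 - 3 / 2 * (z - 2 / 3 * (t - t ^ 5) * w) * (ρ + r)) := by
    simp only [P3]
    ring
  have h1 : 0 ≤ ρ ^ 2 + ρ * r + r ^ 2 - 3 / 2 * (z - 2 / 3 * (t - t ^ 5) * w) * (ρ + r) := by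
    have h2 : (z - 2 / 3 * (t - t ^ 5) * w) * (ρ + r) ≤ r * (ρ + r) := by
      apply mul_le_mul_of_nonneg_right hr0
      linarith
    nlinarith
  have := mul_nonneg (sub_nonneg.2 hρ) h1
  linarith

/-- Monotonicity in `r` to the left of `r₀ = z - κ w`. -/
theorem P3_anti {t r ρ z w : ℝ} (hρ0 : 0 ≤ ρ) (hr0 : r ≤ z - 2 / 3 * (t - t ^ 5) * w)
    (hρ : ρ ≤ r) : P3 t (r, z, w) ≤ P3 t (ρ, z, w) := by
  have key : P3 t (ρ, z, w) - P3 t (r, z, w) =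
      (r - ρ) * (3 / 2 * (z - 2 / 3 * (t - t ^ 5) * w) * (ρ + r) - (ρ ^ 2 + ρ * r + r ^ 2)) := by
    simp only [P3]
    ring
  have h1 : 0 ≤ 3 / 2 * (z - 2 / 3 * (t - t ^ 5) * w) * (ρ + r) - (ρ ^ 2 + ρ * r + r ^ 2) := by
    have h2 : r * (ρ + r) ≤ (z - 2 / 3 * (t - t ^ 5) * w) * (ρ + r) := by
      apply mul_le_mul_of_nonneg_right hr0
      linarith
    nlinarith
  have := mul_nonneg (sub_nonneg.2 hρ) h1
  linarith

/-- Points to the right of `r₀` are joined to `(1, 0, 0)`. -/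
theorem joined_right {t r z w : ℝ} (h0 : 0 ≤ t) (h1 : t ≤ 1 / 10) (hr : 0 ≤ r)
    (hr0 : z - 2 / 3 * (t - t ^ 5) * w ≤ r) (hP : 0 < P3 t (r, z, w)) :
    JoinedIn (S3 t) (r, z, w) (1, 0, 0) := by
  set R := r + 10 * |z| + 10 * |w| + 1 with hR
  have hz := abs_nonneg z
  have hw := abs_nonneg w
  refine (joined_r (r' := R) ?_).trans (joined_big h0 h1 (by linarith) (by linarith)
    (by linarith))
  intro ρ hρ
  rw [uIcc_of_le (by linarith)] at hρ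
  exact hP.trans_le (P3_mono hr hr0 hρ.1)

/-- `(0, z, 0)` with `z > 0` is joined to `(1, 0, 0)`. -/
theorem joined_zaxis {t z : ℝ} (hz : 0 < z) :
    JoinedIn (S3 t) (0, z, 0) (1, 0, 0) := by
  refine (joined_z (z' := 1) ?_).trans ((joined_r (r' := 1) ?_).trans (joined_z ?_))
  · intro ζ hζ
    have hζ0 : 0 < ζ := by
      rw [mem_uIcc] at hζ
      rcases hζ with h | h <;> linarith [h.1, h.2]
    simp only [P3]
    have : 0 < ζ ^ 3 := by positivity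
    nlinarith
  · intro ρ hρ
    rw [uIcc_of_le (by norm_num)] at hρ
    simp only [P3]
    nlinarith [hρ.1, hρ.2, mul_nonneg hρ.1 (sq_nonneg (ρ - 1)), sq_nonneg (ρ - 1)]
  · intro ζ hζ
    rw [uIcc_of_ge (by norm_num)] at hζ
    simp only [P3]
    nlinarith [hζ.1, hζ.2, mul_nonneg hζ.1 (sq_nonneg (ζ - 3 / 4)), sq_nonneg (ζ - 3 / 4),
      sq_nonneg (ζ - 1 / 2)]

theorem P3_zero_r {t z w : ℝ} : P3 t (0, z, w) = z ^ 3 - (2 * t + t ^ 5) * w * z ^ 2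
    + t ^ 5 * w ^ 3 := by
  simp only [P3]
  ring

/-- The slice `r = 0`, to the right of the line `z = κ w`. -/
theorem joined_slice {t z w : ℝ} (h0 : 0 ≤ t) (h1 : t ≤ 1 / 10)
    (hz : 2 / 3 * (t - t ^ 5) * w < z) (hP : 0 < P3 t (0, z, w)) :
    JoinedIn (S3 t) (0, z, w) (1, 0, 0) := by
  have hδ0 : 0 ≤ t ^ 5 := by positivity
  have hδ := pow5_le h0 h1
  set κ := 2 / 3 * (t - t ^ 5) with hκ
  have hκ0 : 0 ≤ κ := by
    rw [hκ]
    nlinarith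
  rcases le_or_gt 0 w with hw | hw
  · -- `w ≥ 0`: decrease `w` to `0`
    have hz0 : 0 < z := lt_of_le_of_lt (mul_nonneg hκ0 hw) hz
    refine (joined_w (w' := 0) ?_).trans (joined_zaxis hz0)
    intro ω hω
    rw [uIcc_of_ge hw] at hω
    refine hP.trans_le ?_
    rw [P3_zero_r, P3_zero_r]
    have h3 : 3 * t ^ 5 * w ^ 2 ≤ (2 * t + t ^ 5) * z ^ 2 := by
      have hz2 : κ ^ 2 * w ^ 2 ≤ z ^ 2 := by
        rw [← mul_pow]
        exact pow_le_pow_left₀ (mul_nonneg hκ0 hw) hz.le 2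
      have hκ1 : t / 2 ≤ κ := by
        rw [hκ]
        nlinarith
      have hκ2 : t ^ 2 / 4 ≤ κ ^ 2 := by
        have := pow_le_pow_left₀ (by positivity : 0 ≤ t / 2) hκ1 2
        calc t ^ 2 / 4 = (t / 2) ^ 2 := by ring
          _ ≤ _ := this
      have h4 : t ^ 2 / 4 * w ^ 2 ≤ z ^ 2 := by
        calc t ^ 2 / 4 * w ^ 2 ≤ κ ^ 2 * w ^ 2 := by gcongr
          _ ≤ _ := hz2
      have h5 : 3 * t ^ 5 * w ^ 2 ≤ 2 * t * (t ^ 2 / 4 * w ^ 2) := by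
        have h6 : t ^ 2 ≤ 1 / 100 := by nlinarith
        have h7 : 0 ≤ t ^ 3 * w ^ 2 := by positivity
        have h8 : t ^ 3 * w ^ 2 * t ^ 2 ≤ t ^ 3 * w ^ 2 * (1 / 100) := by gcongr
        nlinarith
      calc 3 * t ^ 5 * w ^ 2 ≤ 2 * t * (t ^ 2 / 4 * w ^ 2) := h5
        _ ≤ 2 * t * z ^ 2 := by gcongr
        _ ≤ (2 * t + t ^ 5) * z ^ 2 := by nlinarith [mul_nonneg hδ0 (sq_nonneg z)]
    have h9 : ω ^ 2 + ω * w + w ^ 2 ≤ 3 * w ^ 2 := by nlinarith [hω.1, hω.2]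
    have h10 : t ^ 5 * (ω ^ 2 + ω * w + w ^ 2) ≤ (2 * t + t ^ 5) * z ^ 2 := by
      calc t ^ 5 * (ω ^ 2 + ω * w + w ^ 2) ≤ t ^ 5 * (3 * w ^ 2) := by gcongr
        _ = 3 * t ^ 5 * w ^ 2 := by ring
        _ ≤ _ := h3
    have h11 := mul_nonneg (sub_nonneg.2 hω.2) (sub_nonneg.2 h10)
    nlinarith
  · rcases lt_or_ge 0 z with hz0 | hz0
    · -- `w < 0 < z`: increase `w` to `0`
      refine (joined_w (w' := 0) ?_).trans (joined_zaxis hz0)
      intro ω hω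
      rw [uIcc_of_le hw.le] at hω
      rw [P3_zero_r] at hP ⊢
      have hz3 : 0 < z ^ 3 := by positivity
      rcases eq_or_lt_of_le hω.2 with h | hω0
      · rw [h]
        simpa using hz3
      · -- concavity
        have e : (-w) * (z ^ 3 - (2 * t + t ^ 5) * ω * z ^ 2 + t ^ 5 * ω ^ 3) =
            (-w + ω) * z ^ 3 + (-ω) * (z ^ 3 - (2 * t + t ^ 5) * w * z ^ 2 + t ^ 5 * w ^ 3)
              + t ^ 5 * (-ω) * (-w) * (w ^ 2 - ω ^ 2) := by ring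
        have h1 : 0 ≤ (-w + ω) * z ^ 3 := mul_nonneg (by linarith [hω.1]) hz3.le
        have h2 : 0 < (-ω) * (z ^ 3 - (2 * t + t ^ 5) * w * z ^ 2 + t ^ 5 * w ^ 3) :=
          mul_pos (by linarith) hP
        have h3 : 0 ≤ t ^ 5 * (-ω) * (-w) * (w ^ 2 - ω ^ 2) := by
          apply mul_nonneg
          · exact mul_nonneg (mul_nonneg hδ0 (by linarith)) (by linarith)
          · nlinarith [hω.1]
        have h4 : 0 < (-w) * (z ^ 3 - (2 * t + t ^ 5) * ω * z ^ 2 + t ^ 5 * ω ^ 3) := by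
          rw [e]
          linarith
        exact (pos_iff_pos_of_mul_pos h4).1 (by linarith)
    · -- `w < 0`, `z ≤ 0`: decrease `z` to `κ w`
      have hκw : κ * w ≤ 0 := mul_nonpos_of_nonneg_of_nonpos hκ0 hw.le
      have hκt : 2 * κ ≤ 2 * t + t ^ 5 := by
        rw [hκ]
        linarith
      refine (joined_z (z' := κ * w) ?_).trans (joined_right h0 h1 le_rfl (by simp [hκ]) ?_)
      all_goals
        have hmono : ∀ ζ, κ * w ≤ ζ → ζ ≤ z → P3 t (0, z, w) ≤ P3 t (0, ζ, w) := by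
          intro ζ hζ1 hζ2
          rw [P3_zero_r, P3_zero_r]
          have e : (ζ ^ 3 - (2 * t + t ^ 5) * w * ζ ^ 2 + t ^ 5 * w ^ 3) -
              (z ^ 3 - (2 * t + t ^ 5) * w * z ^ 2 + t ^ 5 * w ^ 3) =
              (z - ζ) * ((2 * t + t ^ 5) * w * (ζ + z) - (ζ ^ 2 + ζ * z + z ^ 2)) := by ring
          have h2 : 0 ≤ (2 * t + t ^ 5) * w * (ζ + z) - (ζ ^ 2 + ζ * z + z ^ 2) := by
            have h3 : 2 * κ * (w * (ζ + z)) ≤ (2 * t + t ^ 5) * (w * (ζ + z)) := by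
              apply mul_le_mul_of_nonneg_right hκt
              nlinarith
            have h4 : 0 ≤ (κ * w - ζ) * (ζ + z) :=
              mul_nonneg_of_nonpos_of_nonpos (by linarith) (by linarith)
            nlinarith
          have := mul_nonneg (sub_nonneg.2 hζ2) h2
          linarith
      · intro ζ hζ
        rw [uIcc_of_ge hz.le] at hζ
        exact hP.trans_le (hmono ζ hζ.1 hζ.2)
      · exact hP.trans_le (hmono (κ * w) le_rfl hz.le)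

/-- All points with `r ≥ 0` are joined to `(1, 0, 0)`. -/
theorem joined_S3 {t r z w : ℝ} (h0 : 0 ≤ t) (h1 : t ≤ 1 / 10) (hr : 0 ≤ r)
    (hP : 0 < P3 t (r, z, w)) : JoinedIn (S3 t) (r, z, w) (1, 0, 0) := by
  rcases le_or_gt (z - 2 / 3 * (t - t ^ 5) * w) r with h | h
  · exact joined_right h0 h1 hr h hP
  · refine (joined_r (r' := 0) ?_).trans (joined_slice h0 h1 (by linarith) ?_)
    · intro ρ hρ
      rw [uIcc_of_ge hr] at hρ
      exact hP.trans_le (P3_anti hρ.1 h.le hρ.2)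
    · exact hP.trans_le (P3_anti le_rfl h.le hr)

end Pool.Agent.TanCones
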