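import Pool.Agent.Lib_helper22.NTA.Poly

/-!
# The family of cubics: connectedness in Cartesian coordinates, critical points
-/

namespace Pool.Agent.TanCones

open Metric Set Filter Topology

/-- Cylindrical coordinates. -/
noncomputable def cyl (r φ z w : ℝ) : E 4 :=
  WithLp.toLp 2 ![r * Real.cos φ, r * Real.sin φ, z, w]

theorem p4_cyl (t r φ z w : ℝ) : p4 t (cyl r φ z w) =
    r ^ 3 * Real.cos (3 * φ) + z ^ 3 - 3 / 2 * z * r ^ 2 + t * (w * (r ^ 2 - 2 * z ^ 2))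
    + t ^ 5 * (w ^ 3 - w * (r ^ 2 + z ^ 2)) := by
  have h : Real.sin φ ^ 2 = 1 - Real.cos φ ^ 2 := Real.sin_sq φ
  simp only [p4, cyl, PiLp.toLp_apply, Matrix.cons_val_zero, Matrix.cons_val_one,
    Matrix.cons_val]
  rw [Real.cos_three_mul, mul_pow, mul_pow, mul_pow, h]
  ring

theorem continuous_cyl : Continuous fun p : ℝ × ℝ × ℝ × ℝ => cyl p.1 p.2.1 p.2.2.1 p.2.2.2 := by
  unfold cyl
  refine (PiLp.continuous_toLp 2 _).comp (continuous_pi fun i => ?_)
  fin_cases i <;> simp <;> fun_prop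

theorem exists_cyl (X : E 4) : ∃ r ≥ 0, ∃ φ, X = cyl r φ (X 2) (X 3) := by
  set z : ℂ := ⟨X 0, X 1⟩ with hz
  refine ⟨‖z‖, norm_nonneg z, z.arg, ?_⟩
  have h := Complex.norm_mul_cos_add_sin_mul_I z
  have h1 : ‖z‖ * Real.cos z.arg = X 0 := by
    have := congrArg Complex.re h
    simpa [hz, ← Complex.ofReal_cos, ← Complex.ofReal_sin] using this
  have h2 : ‖z‖ * Real.sin z.arg = X 1 := by
    have := congrArg Complex.im h
    simpa [hz, ← Complex.ofReal_cos, ← Complex.ofReal_sin] using this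
  ext i
  unfold cyl
  fin_cases i <;> simp [h1, h2]

theorem joined_p4 {t : ℝ} (h0 : 0 ≤ t) (h1 : t ≤ 1 / 10) {X : E 4} (hX : 0 < p4 t X) :
    JoinedIn {X | 0 < p4 t X} X (WithLp.toLp 2 ![0, 0, 1, 0]) := by
  obtain ⟨r, hr, θ, hXc⟩ := exists_cyl X
  set z := X 2
  set w := X 3
  set k : ℤ := round (3 * θ / (2 * Real.pi)) with hk
  set ψ : ℝ := k * (2 * Real.pi) / 3 with hψ
  have hpi := Real.pi_pos
  have hround := abs_sub_round (3 * θ / (2 * Real.pi))
  rw [← hk] at hround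
  have hdiff : |3 * θ - 3 * ψ| ≤ Real.pi := by
    have e : 3 * θ - 3 * ψ = (3 * θ / (2 * Real.pi) - k) * (2 * Real.pi) := by
      rw [hψ]
      field_simp
    rw [e, abs_mul, abs_of_pos (by positivity : 0 < 2 * Real.pi)]
    calc |3 * θ / (2 * Real.pi) - k| * (2 * Real.pi) ≤ 1 / 2 * (2 * Real.pi) := by gcongr
      _ = Real.pi := by ring
  have hcosψ : Real.cos (3 * ψ) = 1 := by
    have : 3 * ψ = k * (2 * Real.pi) := by rw [hψ]; ring
    rw [this, Real.cos_int_mul_two_pi]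
  rw [hXc, p4_cyl] at hX
  -- first rotate
  have step1 : JoinedIn {X | 0 < p4 t X} X (cyl r ψ z w) := by
    apply JoinedIn.ofLine (f := fun s => cyl r (θ + s * (ψ - θ)) z w)
      (Continuous.continuousOn ?_) (by simp [← hXc]) (by simp)
    · rintro _ ⟨s, hs, rfl⟩
      show 0 < p4 t (cyl r (θ + s * (ψ - θ)) z w)
      rw [p4_cyl]
      have hc : Real.cos (3 * θ) ≤ Real.cos (3 * (θ + s * (ψ - θ))) := by
        have e1 : 3 * θ = (3 * θ - 3 * ψ) + k * (2 * Real.pi) := by rw [hψ]; ring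
        have e2 : 3 * (θ + s * (ψ - θ)) = (1 - s) * (3 * θ - 3 * ψ) + k * (2 * Real.pi) := by
          rw [hψ]; ring
        rw [e2]
        conv_lhs => rw [e1]
        rw [Real.cos_add_int_mul_two_pi, Real.cos_add_int_mul_two_pi, ← Real.cos_abs,
          ← Real.cos_abs ((1 - s) * (3 * θ - 3 * ψ))]
        apply Real.cos_le_cos_of_nonneg_of_le_pi (abs_nonneg _) hdiff
        rw [abs_mul, abs_of_nonneg (by linarith [hs.2])]
        have := abs_nonneg (3 * θ - 3 * ψ)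
        nlinarith [hs.1]
      have : r ^ 3 * Real.cos (3 * θ) ≤ r ^ 3 * Real.cos (3 * (θ + s * (ψ - θ))) := by gcongr
      linarith
    · exact continuous_cyl.comp (by fun_prop : Continuous fun s : ℝ =>
        ((r, θ + s * (ψ - θ), z, w) : ℝ × ℝ × ℝ × ℝ))
  -- then move in the half-plane
  have hval : ∀ p : ℝ × ℝ × ℝ, p4 t (cyl p.1 ψ p.2.1 p.2.2) = P3 t p := by
    intro p
    rw [p4_cyl, hcosψ, P3, mul_one]
  have hcont : Continuous fun p : ℝ × ℝ × ℝ => cyl p.1 ψ p.2.1 p.2.2 :=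
    continuous_cyl.comp (by fun_prop : Continuous fun p : ℝ × ℝ × ℝ =>
        ((p.1, ψ, p.2.1, p.2.2) : ℝ × ℝ × ℝ × ℝ))
  have hP : 0 < P3 t (r, z, w) := by
    rw [← hval]
    exact step1.target_mem
  have hbase : JoinedIn (S3 t) ((0 : ℝ), (1 : ℝ), (0 : ℝ)) (1, 0, 0) := joined_zaxis one_pos
  have step2 := ((joined_S3 h0 h1 hr hP).trans hbase.symm).map hcont
  have step3 : JoinedIn {X | 0 < p4 t X} (cyl r ψ z w) (cyl 0 ψ 1 0) := by
    refine step2.mono ?_
    rintro _ ⟨p, hp, rfl⟩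
    show 0 < p4 t (cyl p.1 ψ p.2.1 p.2.2)
    rw [hval]
    exact hp
  have hend : cyl 0 ψ 1 0 = WithLp.toLp 2 ![0, 0, 1, 0] := by
    unfold cyl
    simp
  rw [hend] at step3
  exact step1.trans step3

theorem isConnected_p4 {t : ℝ} (h0 : 0 ≤ t) (h1 : t ≤ 1 / 10) :
    IsConnected {X : E 4 | 0 < p4 t X} := by
  apply IsPathConnected.isConnected
  refine ⟨WithLp.toLp 2 ![0, 0, 1, 0], ?_, fun {Y} hY => (joined_p4 h0 h1 hY).symm⟩
  simp [p4]

/-- The projection to the first three coordinates. -/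
theorem isConnected_q3 : IsConnected {X : E 3 | 0 < q3 X} := by
  have h := isConnected_p4 (t := 0) le_rfl (by norm_num)
  have hc : Continuous fun X : E 4 => (WithLp.toLp 2 ![X 0, X 1, X 2] : E 3) := by
    refine (PiLp.continuous_toLp 2 _).comp (continuous_pi fun i => ?_)
    fin_cases i <;> simp <;> fun_prop
  have := h.image _ hc.continuousOn
  convert this using 1
  ext Y
  constructor
  · intro hY
    refine ⟨WithLp.toLp 2 ![Y 0, Y 1, Y 2, 0], ?_, ?_⟩
    · have : 0 < q3 Y := hY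
      simpa [p4, q3] using this
    · ext i
      fin_cases i <;> simp
  · rintro ⟨X, hX, rfl⟩
    have : 0 < p4 0 X := hX
    simpa [p4, q3] using this

/-! ### Critical points -/

theorem crit_q {x y z : ℝ} (h1 : 3 * x ^ 2 - 3 * y ^ 2 - 3 * x * z = 0)
    (h2 : -6 * x * y - 3 * z * y = 0) (h3 : 3 * z ^ 2 - 3 / 2 * (x ^ 2 + y ^ 2) = 0) :
    x = 0 ∧ y = 0 ∧ z = 0 := by
  have h2' : y * (2 * x + z) = 0 := by linarith
  rcases mul_eq_zero.1 h2' with hy | hz
  · subst hy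
    have h1' : x * (x - z) = 0 := by linarith
    rcases mul_eq_zero.1 h1' with hx | hx
    · subst hx
      have : z ^ 2 = 0 := by linarith
      exact ⟨rfl, rfl, by simpa using this⟩
    · have hxz : x = z := by linarith
      subst hxz
      have : x ^ 2 = 0 := by linarith
      have hx0 : x = 0 := by simpa using this
      exact ⟨hx0, rfl, hx0⟩
  · have hz' : z = -2 * x := by linarith
    subst hz'
    have e1 : y ^ 2 = 3 * x ^ 2 := by linarith
    have : x ^ 2 = 0 := by nlinarith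
    have hx0 : x = 0 := by simpa using this
    have hy0 : y = 0 := by
      rw [hx0] at e1
      simpa using e1
    exact ⟨hx0, hy0, by rw [hx0]; ring⟩

theorem crit_aux {ν s : ℝ} (hs0 : 0 ≤ s) (hs1 : s ≤ 1 / 100)
    (h1 : 3 / 2 * ν ^ 2 - 6 * s ^ 2 * ν - 2 / 3 * (1 - s ^ 2) * (2 + 4 * s ^ 2) = 0)
    (h2 : ν ^ 2 - 2 * (ν + 2 / 3 * (1 - s ^ 2)) ^ 2
      + s * (3 - s * (ν ^ 2 + (ν + 2 / 3 * (1 - s ^ 2)) ^ 2)) = 0) : False := by
  set e := s ^ 2 with he
  have he0 : 0 ≤ e := by positivity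
  have he1 : e ≤ 1 / 10000 := by nlinarith
  set k := 2 / 3 * (1 - e) with hk
  have hk1 : k ≤ 2 / 3 := by rw [hk]; linarith
  have hk2 : 2 / 3 - 1 / 10000 ≤ k := by rw [hk]; linarith
  -- bounds on ν²
  have hA : (ν - 2 * e) ^ 2 = 2 / 3 * k * (2 + 4 * e) + 4 * e ^ 2 := by
    nlinarith
  have hee : e ^ 2 ≤ 1 / 10000 := by nlinarith
  have hAup : (ν - 2 * e) ^ 2 ≤ 0.891 := by
    rw [hA]
    nlinarith [mul_nonneg he0 (by linarith : 0 ≤ k), mul_nonneg he0 he0]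
  have hAlo : 0.888 ≤ (ν - 2 * e) ^ 2 := by
    rw [hA]
    nlinarith [mul_nonneg he0 (by linarith : 0 ≤ k), mul_nonneg he0 he0]
  have hν1 : ν - 2 * e ≤ 0.944 := by nlinarith
  have hν2 : -0.944 ≤ ν - 2 * e := by nlinarith
  have hcases : 0.942 ≤ ν - 2 * e ∨ ν - 2 * e ≤ -0.942 := by
    by_contra hcon
    push Not at hcon
    nlinarith
  have hss : 0 ≤ s * s := by positivity
  have hs2 : s * s ≤ 1 / 10000 := by nlinarith
  rcases hcases with h | h
  · -- ν ≈ 0.943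
    have hνa : 0.942 ≤ ν := by linarith
    have hνb : ν ≤ 0.945 := by linarith
    have hT : s * (3 - s * (ν ^ 2 + (ν + k) ^ 2)) ≤ 0.03 := by
      have : 0 ≤ s * s * (ν ^ 2 + (ν + k) ^ 2) := by positivity
      nlinarith
    nlinarith
  · have hνa : ν ≤ -0.9415 := by linarith
    have hνb : -0.945 ≤ ν := by linarith
    have hT : 0 ≤ s * (3 - s * (ν ^ 2 + (ν + k) ^ 2)) := by
      apply mul_nonneg hs0
      have h3 : ν ^ 2 ≤ 1 := by nlinarith
      have h4 : (ν + k) ^ 2 ≤ 1 := by nlinarith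
      have h5 : s * (ν ^ 2 + (ν + k) ^ 2) ≤ 1 / 100 * 2 := by
        apply mul_le_mul hs1 (by linarith) (by positivity) (by norm_num)
      linarith
    have h6 : (ν + k) ^ 2 ≤ 0.08 := by nlinarith
    nlinarith

theorem crit_p {t x y z w : ℝ} (ht : 0 < t) (ht1 : t ≤ 1 / 10)
    (h1 : 3 * x ^ 2 - 3 * y ^ 2 - 3 * x * z + 2 * t * w * x - 2 * t ^ 5 * w * x = 0)
    (h2 : -6 * x * y - 3 * z * y + 2 * t * w * y - 2 * t ^ 5 * w * y = 0)
    (h3 : 3 * z ^ 2 - 3 / 2 * (x ^ 2 + y ^ 2) - 4 * t * w * z - 2 * t ^ 5 * w * z = 0)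
    (h4 : t * (x ^ 2 + y ^ 2 - 2 * z ^ 2) + t ^ 5 * (3 * w ^ 2 - x ^ 2 - y ^ 2 - z ^ 2) = 0) :
    x = 0 ∧ y = 0 ∧ z = 0 ∧ w = 0 := by
  have hδ0 : 0 < t ^ 5 := by positivity
  have hδ := pow5_le ht.le ht1
  set κ := 2 / 3 * (t - t ^ 5) with hκ
  -- reduction to the plane
  obtain ⟨u, hu, huz⟩ : ∃ u, x ^ 2 + y ^ 2 = u ^ 2 ∧ (u = 0 ∨ z = u + κ * w) := by
    have h2' : y * (-2 * x - z + κ * w) = 0 := by rw [hκ]; linarith
    rcases mul_eq_zero.1 h2' with hy | hz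
    · refine ⟨x, by rw [hy]; ring, ?_⟩
      have h1' : x * (x - z + κ * w) = 0 := by
        rw [hy] at h1
        rw [hκ]
        linarith
      rcases mul_eq_zero.1 h1' with hx | hx
      · exact Or.inl hx
      · exact Or.inr (by linarith)
    · refine ⟨-2 * x, ?_, Or.inr (by linarith)⟩
      have hz' : z = -2 * x + κ * w := by linarith
      rw [hz', hκ] at h1
      nlinarith
  rw [hu] at h3
  have h4' : t * (u ^ 2 - 2 * z ^ 2) + t ^ 5 * (3 * w ^ 2 - u ^ 2 - z ^ 2) = 0 := by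
    rw [← hu]
    linarith
  -- it suffices to show `u = 0`, `z = 0`, `w = 0`
  have hfin : u = 0 ∧ z = 0 ∧ w = 0 → x = 0 ∧ y = 0 ∧ z = 0 ∧ w = 0 := by
    rintro ⟨hu0, hz0, hw0⟩
    rw [hu0] at hu
    have hx : x ^ 2 = 0 := by nlinarith [sq_nonneg x, sq_nonneg y]
    have hy : y ^ 2 = 0 := by nlinarith [sq_nonneg x, sq_nonneg y]
    exact ⟨by simpa using hx, by simpa using hy, hz0, hw0⟩
  apply hfin
  by_cases hu0 : u = 0
  · subst hu0
    refine ⟨rfl, ?_⟩
    have hz3 : z * (3 * z - (4 * t + 2 * t ^ 5) * w) = 0 := by linarith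
    rcases mul_eq_zero.1 hz3 with hz | hz
    · refine ⟨hz, ?_⟩
      rw [hz] at h4'
      have : t ^ 5 * w ^ 2 = 0 := by linarith
      rcases mul_eq_zero.1 this with h | h
      · exact absurd h hδ0.ne'
      · simpa using h
    · have hzw : z = (4 * t + 2 * t ^ 5) * w / 3 := by linarith
      have hw0 : w = 0 := by
        by_contra hw
        have hw2 : 0 < w ^ 2 := by positivity
        rw [hzw] at h4'
        have h5 : 4 * (2 * t + t ^ 5) ^ 3 * w ^ 2 = 27 * t ^ 5 * w ^ 2 := by nlinarith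
        have h6 : 4 * (2 * t + t ^ 5) ^ 3 = 27 * t ^ 5 := mul_right_cancel₀ hw2.ne' h5
        have h7 : (2 * t) ^ 3 ≤ (2 * t + t ^ 5) ^ 3 := by gcongr; linarith
        have h8 : t ^ 2 ≤ 1 / 100 := by nlinarith
        have h9 : 0 < t ^ 3 := by positivity
        nlinarith
      exact ⟨by rw [hzw, hw0]; ring, hw0⟩
  · exfalso
    have hz : z = u + κ * w := huz.resolve_left hu0
    have hw : w ≠ 0 := by
      rintro rfl
      rw [hz] at h3
      have : u ^ 2 = 0 := by nlinarith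
      exact hu0 (by simpa using this)
    -- normalise
    set ν := u / (t * w) with hν
    have hu' : u = ν * (t * w) := by rw [hν]; field_simp
    have htw : 0 < t ^ 2 * w ^ 2 := by positivity
    have htw3 : t ^ 3 * w ^ 2 ≠ 0 := by positivity
    apply crit_aux (ν := ν) (s := t ^ 2) (by positivity) (by nlinarith)
    · have e : (t ^ 2 * w ^ 2) * (3 / 2 * ν ^ 2 - 6 * (t ^ 2) ^ 2 * ν
          - 2 / 3 * (1 - (t ^ 2) ^ 2) * (2 + 4 * (t ^ 2) ^ 2)) =
          3 * z ^ 2 - 3 / 2 * u ^ 2 - 4 * t * w * z - 2 * t ^ 5 * w * z := by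
        rw [hz, hu', hκ]
        ring
      rw [h3] at e
      exact (mul_eq_zero.1 e).resolve_left htw.ne'
    · have e : (t ^ 3 * w ^ 2) * (ν ^ 2 - 2 * (ν + 2 / 3 * (1 - (t ^ 2) ^ 2)) ^ 2
          + t ^ 2 * (3 - t ^ 2 * (ν ^ 2 + (ν + 2 / 3 * (1 - (t ^ 2) ^ 2)) ^ 2))) =
          t * (u ^ 2 - 2 * z ^ 2) + t ^ 5 * (3 * w ^ 2 - u ^ 2 - z ^ 2) := by
        rw [hz, hu', hκ]
        ring
      rw [h4'] at e
      exact (mul_eq_zero.1 e).resolve_left htw3

end Pool.Agent.TanCones
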