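import Pool.Agent.Lib_helper22.NTA.Poly2

/-!
# The family of cubics: smoothness and the NTA property
-/

namespace Pool.Agent.TanCones

open Metric Set Filter Topology

theorem contDiff_q3 : ContDiff ℝ 1 q3 := by
  unfold q3
  fun_prop

theorem contDiff_p4 (t : ℝ) : ContDiff ℝ 1 (p4 t) := by
  unfold p4
  fun_prop

theorem hasDerivAt_coord {n : ℕ} (X v : E n) (i : Fin n) :
    HasDerivAt (fun s : ℝ => (X + s • v) i) (v i) 0 := by
  have : HasDerivAt (fun s : ℝ => X i + s * v i) (v i) 0 := by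
    simpa using ((hasDerivAt_id (0 : ℝ)).mul_const (v i)).const_add (X i)
  simpa using this

theorem fderiv_q3 (X v : E 3) : fderiv ℝ q3 X v =
    (3 * X 0 ^ 2 - 3 * X 1 ^ 2 - 3 * X 0 * X 2) * v 0
    + (-6 * X 0 * X 1 - 3 * X 2 * X 1) * v 1
    + (3 * X 2 ^ 2 - 3 / 2 * (X 0 ^ 2 + X 1 ^ 2)) * v 2 := by
  have h1 : HasDerivAt (fun s : ℝ => q3 (X + s • v)) (fderiv ℝ q3 X v) 0 := by
    have h := ((contDiff_q3.differentiable one_ne_zero) (X + (0 : ℝ) • v)).hasFDerivAt
    have h2 : HasDerivAt (fun s : ℝ => X + s • v) v 0 := by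
      simpa using ((hasDerivAt_id (0 : ℝ)).smul_const v).const_add X
    have := h.comp_hasDerivAt (0 : ℝ) h2
    rw [zero_smul, add_zero] at this
    exact this
  have d0 := hasDerivAt_coord X v 0
  have d1 := hasDerivAt_coord X v 1
  have d2 := hasDerivAt_coord X v 2
  have h2 := ((((d0.pow 3).sub ((d0.const_mul 3).mul (d1.pow 2))).add (d2.pow 3)).sub
    ((d2.const_mul (3 / 2)).mul ((d0.pow 2).add (d1.pow 2))))
  have h3 := h1.unique h2
  rw [h3]
  simp
  ring

theorem fderiv_p4 (t : ℝ) (X v : E 4) : fderiv ℝ (p4 t) X v =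
    (3 * X 0 ^ 2 - 3 * X 1 ^ 2 - 3 * X 0 * X 2 + 2 * t * X 3 * X 0 - 2 * t ^ 5 * X 3 * X 0) * v 0
    + (-6 * X 0 * X 1 - 3 * X 2 * X 1 + 2 * t * X 3 * X 1 - 2 * t ^ 5 * X 3 * X 1) * v 1
    + (3 * X 2 ^ 2 - 3 / 2 * (X 0 ^ 2 + X 1 ^ 2) - 4 * t * X 3 * X 2 - 2 * t ^ 5 * X 3 * X 2)
      * v 2
    + (t * (X 0 ^ 2 + X 1 ^ 2 - 2 * X 2 ^ 2)
      + t ^ 5 * (3 * X 3 ^ 2 - X 0 ^ 2 - X 1 ^ 2 - X 2 ^ 2)) * v 3 := by
  have h1 : HasDerivAt (fun s : ℝ => p4 t (X + s • v)) (fderiv ℝ (p4 t) X v) 0 := by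
    have h := (((contDiff_p4 t).differentiable one_ne_zero) (X + (0 : ℝ) • v)).hasFDerivAt
    have h2 : HasDerivAt (fun s : ℝ => X + s • v) v 0 := by
      simpa using ((hasDerivAt_id (0 : ℝ)).smul_const v).const_add X
    have := h.comp_hasDerivAt (0 : ℝ) h2
    rw [zero_smul, add_zero] at this
    exact this
  have d0 := hasDerivAt_coord X v 0
  have d1 := hasDerivAt_coord X v 1
  have d2 := hasDerivAt_coord X v 2
  have d3 := hasDerivAt_coord X v 3
  have h2 := (((((d0.pow 3).sub ((d0.const_mul 3).mul (d1.pow 2))).add (d2.pow 3)).sub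
    ((d2.const_mul (3 / 2)).mul ((d0.pow 2).add (d1.pow 2)))).add
    ((d3.mul (((d0.pow 2).add (d1.pow 2)).sub ((d2.pow 2).const_mul 2))).const_mul t)).add
    (((d3.pow 3).sub (d3.mul (((d0.pow 2).add (d1.pow 2)).add (d2.pow 2)))).const_mul (t ^ 5))
  have h3 := h1.unique h2
  rw [h3]
  simp
  ring

theorem smoothCone_q3 : SmoothCone q3 3 where
  contDiff := contDiff_q3
  hom c _ X := by
    simp only [q3, PiLp.smul_apply, smul_eq_mul]
    ring
  zero := by simp [q3]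
  grad X hX h := by
    have h1 := fderiv_q3 X (EuclideanSpace.single 0 1)
    have h2 := fderiv_q3 X (EuclideanSpace.single 1 1)
    have h3 := fderiv_q3 X (EuclideanSpace.single 2 1)
    rw [h] at h1 h2 h3
    simp at h1 h2 h3
    obtain ⟨e0, e1, e2⟩ := crit_q (x := X 0) (y := X 1) (z := X 2) (by linarith) (by linarith)
      (by linarith)
    apply hX
    ext i
    fin_cases i
    · exact e0
    · exact e1
    · exact e2

theorem smoothCone_p4 {t : ℝ} (ht : 0 < t) (ht1 : t ≤ 1 / 10) : SmoothCone (p4 t) 3 where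
  contDiff := contDiff_p4 t
  hom c _ X := by
    simp only [p4, PiLp.smul_apply, smul_eq_mul]
    ring
  zero := by simp [p4]
  grad X hX h := by
    have h1 := fderiv_p4 t X (EuclideanSpace.single 0 1)
    have h2 := fderiv_p4 t X (EuclideanSpace.single 1 1)
    have h3 := fderiv_p4 t X (EuclideanSpace.single 2 1)
    have h4 := fderiv_p4 t X (EuclideanSpace.single 3 1)
    rw [h] at h1 h2 h3 h4
    simp at h1 h2 h3 h4
    obtain ⟨e0, e1, e2, e3⟩ := crit_p (x := X 0) (y := X 1) (z := X 2) (w := X 3) ht ht1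
      (by linarith) (by linarith) (by linarith) (by linarith)
    apply hX
    ext i
    fin_cases i
    · exact e0
    · exact e1
    · exact e2
    · exact e3

theorem q3_neg (X : E 3) : q3 (-X) = -q3 X := by
  simp only [q3, PiLp.neg_apply]
  ring

theorem p4_neg (t : ℝ) (X : E 4) : p4 t (-X) = -p4 t X := by
  simp only [p4, PiLp.neg_apply]
  ring

end Pool.Agent.TanCones
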