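import Pool.Agent.Lib_helper22.NTA.Cone

/-!
# Products of NTA cones with Euclidean factors
-/

namespace Pool.Agent.TanCones

open Metric Set Filter Topology Pointwise

set_option linter.unusedSectionVars false

variable {V W : Type*} [NormedAddCommGroup V] [NormedSpace ℝ V] [NormedAddCommGroup W]
  [NormedSpace ℝ W]

/-- `π` is a contracting projection with isometric section `ι`. -/
structure IsProj (π : V →L[ℝ] W) (ι : W →L[ℝ] V) : Prop where
  left_inv : ∀ y, π (ι y) = y
  norm_le : ∀ X, ‖π X‖ ≤ ‖X‖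
  norm_eq : ∀ y, ‖ι y‖ = ‖y‖

variable {π : V →L[ℝ] W} {ι : W →L[ℝ] V}

theorem IsProj.dist_le (h : IsProj π ι) (X Y : V) : dist (π X) (π Y) ≤ dist X Y := by
  rw [dist_eq_norm, dist_eq_norm, ← map_sub]
  exact h.norm_le _

theorem IsProj.infDist_preimage (h : IsProj π ι) (S : Set W) (hS : S.Nonempty) (X : V) :
    infDist X (π ⁻¹' S) = infDist (π X) S := by
  have hne : (π ⁻¹' S).Nonempty := by
    obtain ⟨y, hy⟩ := hS
    exact ⟨ι y, by simpa [h.left_inv] using hy⟩
  apply le_antisymm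
  · rw [le_infDist hS]
    intro y hy
    have h1 : X + ι (y - π X) ∈ π ⁻¹' S := by
      rw [mem_preimage, map_add, h.left_inv]
      simpa using hy
    calc infDist X (π ⁻¹' S) ≤ dist X (X + ι (y - π X)) := infDist_le_dist_of_mem h1
      _ = dist (π X) y := by
        rw [dist_eq_norm, sub_add_cancel_left, norm_neg, h.norm_eq, dist_comm, dist_eq_norm]
  · rw [le_infDist hne]
    intro Y hY
    have h1 : infDist (π X) S ≤ dist (π X) (π Y) := infDist_le_dist_of_mem hY
    exact h1.trans (h.dist_le X Y)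

theorem Reach.lift (h : IsProj π ι) {Ω : Set W} (hne : Ωᶜ.Nonempty) : ∀ {N : ℕ} {x y : W},
    Reach Ω N x y → ∀ X : V, π X = x → Reach (π ⁻¹' Ω) N X (X + ι (y - x))
  | 0, x, y, hr, X, _ => by
    cases hr
    show X = X + ι (x - x)
    simp
  | (N + 1), x, y, ⟨z, hx, hz, hr⟩, X, hX => by
    have hpi : π (X + ι (z - x)) = z := by
      rw [map_add, h.left_inv, hX]
      simp
    have := Reach.lift h hne hr (X + ι (z - x)) hpi
    refine ⟨X + ι (z - x), by rw [mem_preimage, hX]; exact hx, ?_, ?_⟩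
    · rw [← preimage_compl, h.infDist_preimage _ hne, hX, dist_eq_norm, sub_add_cancel_left,
        norm_neg, h.norm_eq, ← dist_eq_norm, dist_comm]
      exact hz
    · have e : X + ι (z - x) + ι (y - z) = X + ι (y - x) := by
        rw [add_assoc, ← map_add]
        congr 2
        abel
      rwa [e] at this

theorem UniformReach.preimage (h : IsProj π ι) {Ω : Set W} (hne : Ωᶜ.Nonempty)
    (hr : UniformReach Ω) : UniformReach (π ⁻¹' Ω) := by
  intro C hC
  obtain ⟨N, hN⟩ := hr C hC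
  refine ⟨N + (⌈6 * C⌉₊ + 1), ?_⟩
  intro ε hε X hX Y hY hXε hYε hd
  rw [← preimage_compl, h.infDist_preimage _ hne] at hXε hYε
  have r1 := (hN ε hε (π X) hX (π Y) hY hXε hYε ((h.dist_le X Y).trans_lt hd)).lift h hne X rfl
  refine r1.trans ?_
  refine reach_segment hε (by omega) ?_ ?_
  · have h1 : dist (X + ι (π Y - π X)) X ≤ dist X Y := by
      rw [dist_eq_norm, add_sub_cancel_left, h.norm_eq, ← dist_eq_norm, dist_comm]
      exact h.dist_le X Y
    have h2 : 6 * C ≤ ((⌈6 * C⌉₊ + 1 : ℕ) : ℝ) := by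
      push_cast
      exact (Nat.le_ceil _).trans (by linarith)
    calc dist (X + ι (π Y - π X)) Y ≤ dist (X + ι (π Y - π X)) X + dist X Y :=
          dist_triangle _ _ _
      _ ≤ 2 * (C * ε) := by linarith
      _ = 6 * C * (ε / 3) := by ring
      _ ≤ _ := by gcongr
  · intro s _
    have hpi : π (X + ι (π Y - π X) + s • (Y - (X + ι (π Y - π X)))) = π Y := by
      simp [h.left_inv]
    refine ⟨by rw [mem_preimage, hpi]; exact hY, ?_⟩
    rw [← preimage_compl, h.infDist_preimage _ hne, hpi]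
    exact hYε.le

theorem Cork.preimage (h : IsProj π ι) {Ω S : Set W} (hc : Cork Ω S) :
    Cork (π ⁻¹' Ω) (π ⁻¹' S) := by
  obtain ⟨η, hη, hη1, H⟩ := hc
  refine ⟨η, hη, hη1, ?_⟩
  intro Q hQ r hr
  obtain ⟨A, h1, h2, h3⟩ := H (π Q) hQ r hr
  have hd : dist (Q + ι (A - π Q)) Q = dist A (π Q) := by
    rw [dist_eq_norm, add_sub_cancel_left, h.norm_eq, ← dist_eq_norm]
  refine ⟨Q + ι (A - π Q), by rwa [hd], by rwa [hd], ?_⟩
  intro Z hZ
  rw [mem_ball] at hZ
  apply h3
  rw [mem_ball]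
  have hpi : π (Q + ι (A - π Q)) = A := by simp [h.left_inv]
  calc dist (π Z) A = dist (π Z) (π (Q + ι (A - π Q))) := by rw [hpi]
    _ ≤ _ := h.dist_le _ _
    _ < _ := hZ

theorem Cork.mono {Ω S S' : Set V} (hc : Cork Ω S) (hS : S' ⊆ S) : Cork Ω S' := by
  obtain ⟨η, hη, hη1, H⟩ := hc
  exact ⟨η, hη, hη1, fun Q hQ => H Q (hS hQ)⟩

theorem Cork.mono_left {Ω Ω' S : Set V} (hc : Cork Ω S) (hS : Ω ⊆ Ω') : Cork Ω' S := by
  obtain ⟨η, hη, hη1, H⟩ := hc
  refine ⟨η, hη, hη1, fun Q hQ r hr => ?_⟩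
  obtain ⟨A, h1, h2, h3⟩ := H Q hQ r hr
  exact ⟨A, h1, h2, h3.trans hS⟩

theorem isConnected_preimage (h : IsProj π ι) {Ω : Set W} (hΩ : IsConnected Ω) :
    IsConnected (π ⁻¹' Ω) := by
  have himg : π ⁻¹' Ω = (fun p : W × V => ι p.1 + (p.2 - ι (π p.2))) '' (Ω ×ˢ (univ : Set V)) := by
    ext X
    constructor
    · intro hX
      exact ⟨(π X, X), ⟨hX, mem_univ _⟩, by simp⟩
    · rintro ⟨⟨x, Z⟩, ⟨hx, -⟩, rfl⟩
      simpa [h.left_inv] using hx
  rw [himg]
  refine (hΩ.prod isConnected_univ).image _ (Continuous.continuousOn ?_)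
  fun_prop

/-- The preimage of a smooth cone under a coordinate projection is a global NTA domain. -/
theorem SmoothCone.isGlobalNTA_preimage {n : ℕ} {W : Type*} [NormedAddCommGroup W]
    [NormedSpace ℝ W] [FiniteDimensional ℝ W] {π : E n →L[ℝ] W} {ι : W →L[ℝ] E n}
    (hπ : IsProj π ι) {f : W → ℝ} {d : ℕ} (h : SmoothCone f d)
    (hconn : IsConnected {X | 0 < f X}) (hneg : ∃ X, f X < 0) :
    IsGlobalNTA {X : E n | 0 < f (π X)} := by
  have e : {X : E n | 0 < f (π X)} = π ⁻¹' {X | 0 < f X} := rfl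
  have hne : ({X | 0 < f X}ᶜ : Set W).Nonempty := ⟨0, by simp [h.zero]⟩
  have hfr : frontier (π ⁻¹' {X | 0 < f X}) ⊆ π ⁻¹' {X | f X = 0} := by
    refine (π.continuous.frontier_preimage_subset _).trans (preimage_mono ?_)
    refine (frontier_lt_subset_eq continuous_const h.contDiff.continuous).trans ?_
    intro X hX
    exact Eq.symm hX
  rw [e]
  refine isGlobalNTA_of (h.isOpen_pos.preimage π.continuous) (isConnected_preimage hπ hconn)
    ?_ ?_ ((h.uniformReach hconn.isPreconnected).preimage hπ hne)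
  · exact ((h.cork hconn.nonempty).preimage hπ).mono hfr
  · have h1 := h.neg.cork (by
      obtain ⟨X, hX⟩ := hneg
      exact ⟨X, by linarith⟩)
    have h2 : Cork (π ⁻¹' {X | 0 < -f X}) (π ⁻¹' {X | -f X = 0}) := h1.preimage hπ
    refine (h2.mono_left ?_).mono (hfr.trans ?_)
    · intro X hX
      simp only [mem_preimage, Set.mem_ofPred_eq, mem_compl_iff, not_lt] at hX ⊢
      linarith
    · intro X hX
      simp only [mem_preimage, Set.mem_ofPred_eq] at hX ⊢
      linarith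

end Pool.Agent.TanCones
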