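import Pool.Agent.Lib_helper22.NTA.Defs

/-!
# Chains of points

A combinatorial version of Harnack chains, in an arbitrary real normed space.
-/

namespace Pool.Agent.TanCones

open Metric Set Filter Topology Pointwise

set_option linter.unusedSectionVars false

variable {V : Type*} [NormedAddCommGroup V] [NormedSpace ℝ V]

/-- `Y` can be reached from `X` by `N` steps, each of length less than half of the distance to
the complement of `Ω`. -/
def Reach (Ω : Set V) : ℕ → V → V → Prop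
  | 0, X, Y => X = Y
  | (N + 1), X, Y => ∃ Z, X ∈ Ω ∧ dist X Z < infDist X Ωᶜ / 2 ∧ Reach Ω N Z Y

theorem mem_of_dist_lt {Ω : Set V} {X Y : V} (h : dist X Y < infDist X Ωᶜ) : Y ∈ Ω := by
  by_contra hY
  exact absurd (infDist_le_dist_of_mem (mem_compl hY)) (not_le.mpr h)

theorem infDist_compl_pos {Ω : Set V} (hΩ : IsOpen Ω) (hne : Ωᶜ.Nonempty) {X : V} (hX : X ∈ Ω) :
    0 < infDist X Ωᶜ :=
  (hΩ.isClosed_compl.notMem_iff_infDist_pos hne).1 (by simpa using hX)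

theorem infDist_nonneg_step {Ω : Set V} {X Z : V} (h : dist X Z < infDist X Ωᶜ / 2) :
    Z ∈ Ω := mem_of_dist_lt (h.trans_le (half_le_self infDist_nonneg))

theorem Reach.mem {Ω : Set V} : ∀ {N : ℕ} {X Y : V}, X ∈ Ω → Reach Ω N X Y → Y ∈ Ω
  | 0, _, _, hX, h => by cases h; exact hX
  | (_ + 1), _, _, _, ⟨_, _, hZ, hr⟩ => Reach.mem (infDist_nonneg_step hZ) hr

theorem Reach.trans {Ω : Set V} : ∀ {m n : ℕ} {X Y Z : V}, Reach Ω m X Y → Reach Ω n Y Z →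
    Reach Ω (m + n) X Z
  | 0, n, _, _, _, h, h' => by cases h; simpa using h'
  | (m + 1), n, _, _, _, ⟨W, hX, hW, hr⟩, h' => by
    have := hr.trans h'
    rw [show m + 1 + n = (m + n) + 1 by ring]
    exact ⟨W, hX, hW, this⟩

theorem Reach.single {Ω : Set V} {X Y : V} (hX : X ∈ Ω) (h : dist X Y < infDist X Ωᶜ / 2) :
    Reach Ω 1 X Y := ⟨Y, hX, h, rfl⟩

theorem Reach.refl {Ω : Set V} (hΩ : IsOpen Ω) (hne : Ωᶜ.Nonempty) {X : V} (hX : X ∈ Ω) :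
    ∀ n : ℕ, Reach Ω n X X
  | 0 => rfl
  | (n + 1) => ⟨X, hX, by simpa using infDist_compl_pos hΩ hne hX, Reach.refl hΩ hne hX n⟩

theorem Reach.mono {Ω : Set V} (hΩ : IsOpen Ω) (hne : Ωᶜ.Nonempty) {X Y : V} (hX : X ∈ Ω)
    {m n : ℕ} (hmn : m ≤ n) (h : Reach Ω m X Y) : Reach Ω n X Y := by
  have := h.trans (Reach.refl hΩ hne (h.mem hX) (n - m))
  rwa [Nat.add_sub_cancel' hmn] at this

theorem reach_both_of_close {Ω : Set V} {X Y : V} (hX : X ∈ Ω)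
    (h : dist X Y < infDist X Ωᶜ / 4) : Reach Ω 1 X Y ∧ Reach Ω 1 Y X := by
  have h0 : 0 ≤ infDist X Ωᶜ := infDist_nonneg
  have h1 : dist X Y < infDist X Ωᶜ / 2 := by linarith
  refine ⟨Reach.single hX h1, Reach.single (infDist_nonneg_step h1) ?_⟩
  have h2 : infDist X Ωᶜ ≤ infDist Y Ωᶜ + dist X Y := infDist_le_infDist_add_dist
  rw [dist_comm]
  linarith

theorem reach_seq {Ω : Set V} (u : ℕ → V) : ∀ (m : ℕ),
    (∀ i < m, u i ∈ Ω ∧ dist (u i) (u (i + 1)) < infDist (u i) Ωᶜ / 2) → Reach Ω m (u 0) (u m)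
  | 0, _ => rfl
  | (m + 1), h => by
    have h1 := reach_seq u m (fun i hi => h i (by omega))
    have h2 := Reach.single (h m (by omega)).1 (h m (by omega)).2
    exact h1.trans h2

theorem reach_segment {Ω : Set V} {X Y : V} {δ : ℝ} (hδ : 0 < δ) {m : ℕ} (hm : 0 < m)
    (hd : dist X Y ≤ m * (δ / 3))
    (hseg : ∀ s ∈ Icc (0 : ℝ) 1, X + s • (Y - X) ∈ Ω ∧ δ ≤ infDist (X + s • (Y - X)) Ωᶜ) :
    Reach Ω m X Y := by
  have hm' : (0 : ℝ) < m := by exact_mod_cast hm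
  have key := reach_seq (Ω := Ω) (fun i : ℕ => X + ((i : ℝ) / m) • (Y - X)) m ?_
  · simpa [hm'.ne'] using key
  · intro i hi
    have hi' : (i : ℝ) ≤ m := by exact_mod_cast hi.le
    have hs : (i : ℝ) / m ∈ Icc (0 : ℝ) 1 :=
      ⟨by positivity, by rw [div_le_one hm']; exact hi'⟩
    obtain ⟨h1, h2⟩ := hseg _ hs
    refine ⟨h1, ?_⟩
    have h3 : dist (X + ((i : ℝ) / m) • (Y - X)) (X + (((i + 1 : ℕ) : ℝ) / m) • (Y - X))
        = dist X Y / m := by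
      rw [dist_eq_norm, show X + ((i : ℝ) / m) • (Y - X) - (X + (((i + 1 : ℕ) : ℝ) / m) • (Y - X))
        = (1 / (m : ℝ)) • (X - Y) by
          push_cast
          rw [add_div]
          module, norm_smul, dist_eq_norm, Real.norm_of_nonneg (by positivity)]
      ring
    rw [h3]
    have h4 : dist X Y / m ≤ δ / 3 := by
      rw [div_le_iff₀ hm']; linarith
    linarith

/-- Every point of a connected open set can be reached from every other one. -/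
theorem exists_reach {Ω : Set V} (hΩ : IsOpen Ω) (hc : IsPreconnected Ω) (hne : Ωᶜ.Nonempty)
    {X Y : V} (hX : X ∈ Ω) (hY : Y ∈ Ω) : ∃ N, Reach Ω N X Y ∧ Reach Ω N Y X := by
  set S : Set V := {Z | Z ∈ Ω ∧ ∃ N, Reach Ω N X Z ∧ Reach Ω N Z X} with hS
  have hop : ∀ Z ∈ Ω, ∀ W, dist Z W < infDist Z Ωᶜ / 4 → (Z ∈ S ↔ W ∈ S) := by
    intro Z hZ W hW
    obtain ⟨h1, h2⟩ := reach_both_of_close hZ hW
    have hWm : W ∈ Ω := h1.mem hZ
    constructor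
    · rintro ⟨_, N, h3, h4⟩
      refine ⟨hWm, N + 1, h3.trans h1, ?_⟩
      rw [add_comm]
      exact h2.trans h4
    · rintro ⟨_, N, h3, h4⟩
      refine ⟨hZ, N + 1, h3.trans h2, ?_⟩
      rw [add_comm]
      exact h1.trans h4
  have hball : ∀ Z ∈ Ω, ball Z (infDist Z Ωᶜ / 4) ∈ 𝓝 Z := fun Z hZ =>
    ball_mem_nhds _ (by have := infDist_compl_pos hΩ hne hZ; positivity)
  have hSo : IsOpen S := by
    rw [isOpen_iff_mem_nhds]
    intro Z hZ
    filter_upwards [hball Z hZ.1] with W hW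
    exact (hop Z hZ.1 W (by rwa [mem_ball, dist_comm] at hW)).1 hZ
  have hTo : IsOpen (Ω \ S) := by
    rw [isOpen_iff_mem_nhds]
    intro Z hZ
    filter_upwards [hball Z hZ.1, hΩ.mem_nhds hZ.1] with W hW hWΩ
    exact ⟨hWΩ, fun hWS => hZ.2 ((hop Z hZ.1 W (by rwa [mem_ball, dist_comm] at hW)).2 hWS)⟩
  have hsub : Ω ⊆ S := by
    refine hc.subset_left_of_subset_union hSo hTo disjoint_sdiff_right ?_ ⟨X, hX, hX, 0, rfl, rfl⟩
    intro Z hZ
    by_cases h : Z ∈ S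
    · exact Or.inl h
    · exact Or.inr ⟨hZ, h⟩
  exact (hsub hY).2

/-- Points of a compact subset of a connected open set can be joined by a bounded number of
steps. -/
theorem exists_reach_compact {Ω : Set V} (hΩ : IsOpen Ω) (hc : IsPreconnected Ω)
    (hne : Ωᶜ.Nonempty) {K : Set V} (hK : IsCompact K) (hKΩ : K ⊆ Ω) :
    ∃ N, ∀ X ∈ K, ∀ Y ∈ K, Reach Ω N X Y := by
  rcases K.eq_empty_or_nonempty with rfl | ⟨X₀, hX₀K⟩
  · exact ⟨0, fun X hX => absurd hX (notMem_empty X)⟩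
  have hX₀ := hKΩ hX₀K
  obtain ⟨N, hN⟩ : ∃ N, ∀ Y ∈ K, Reach Ω N X₀ Y ∧ Reach Ω N Y X₀ := by
    refine hK.induction_on (p := fun S => ∃ N, ∀ Y ∈ S ∩ K, Reach Ω N X₀ Y ∧ Reach Ω N Y X₀)
      ?_ ?_ ?_ ?_ |>.imp fun N h Y hY => h Y ⟨hY, hY⟩
    · exact ⟨0, by simp⟩
    · rintro s t hst ⟨N, hN⟩
      exact ⟨N, fun Y hY => hN Y ⟨hst hY.1, hY.2⟩⟩
    · rintro s t ⟨N, hN⟩ ⟨N', hN'⟩
      refine ⟨max N N', ?_⟩
      rintro Y ⟨hY | hY, hYK⟩
      · obtain ⟨h1, h2⟩ := hN Y ⟨hY, hYK⟩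
        exact ⟨h1.mono hΩ hne hX₀ (le_max_left _ _), h2.mono hΩ hne (hKΩ hYK) (le_max_left _ _)⟩
      · obtain ⟨h1, h2⟩ := hN' Y ⟨hY, hYK⟩
        exact ⟨h1.mono hΩ hne hX₀ (le_max_right _ _),
          h2.mono hΩ hne (hKΩ hYK) (le_max_right _ _)⟩
    · intro Z hZ
      obtain ⟨N, h3, h4⟩ := exists_reach hΩ hc hne hX₀ (hKΩ hZ)
      refine ⟨ball Z (infDist Z Ωᶜ / 4), mem_nhdsWithin_of_mem_nhds (ball_mem_nhds _
        (by have := infDist_compl_pos hΩ hne (hKΩ hZ); positivity)), N + 1, ?_⟩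
      rintro W ⟨hW, -⟩
      rw [mem_ball, dist_comm] at hW
      obtain ⟨h1, h2⟩ := reach_both_of_close (hKΩ hZ) hW
      refine ⟨h3.trans h1, ?_⟩
      rw [add_comm]
      exact h2.trans h4
  exact ⟨N + N, fun X hX Y hY => (hN X hX).2.trans (hN Y hY).1⟩

/-- Scaling of `Reach` in a cone. -/
theorem Reach.smul {Ω : Set V} (hcone : ∀ c : ℝ, 0 < c → ∀ X, c • X ∈ Ω ↔ X ∈ Ω) {c : ℝ}
    (hc : 0 < c) : ∀ {N : ℕ} {X Y : V}, Reach Ω N X Y → Reach Ω N (c • X) (c • Y)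
  | 0, _, _, h => by cases h; rfl
  | (N + 1), X, Y, ⟨Z, hX, hZ, hr⟩ => by
    have hcompl : c • Ωᶜ = Ωᶜ := by
      ext W
      rw [mem_smul_set_iff_inv_smul_mem₀ hc.ne']
      simp [hcone c⁻¹ (inv_pos.2 hc) W]
    refine ⟨c • Z, (hcone c hc X).2 hX, ?_, hr.smul hcone hc⟩
    rw [dist_smul₀, ← hcompl, infDist_smul₀ hc.ne', Real.norm_of_nonneg hc.le]
    calc c * dist X Z < c * (infDist X Ωᶜ / 2) := by gcongr
      _ = c * infDist X Ωᶜ / 2 := by ring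

end Pool.Agent.TanCones
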